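import Pool.Agent.Helper27.CW.Defs

namespace Helper27.CW

open Helper27.CD

/-- Q1 -/
def S_info2 : Prop := ∀ (ι : Type) [Fintype ι] [DecidableEq ι] (A B : Finset (ι → ZMod 3)),
  AddPair A B → ∃ (I : Finset ι) (M : ι → ι → ZMod 3), Rel A B I M

/-- Q3a: four times Cauchy-Schwarz -/
def S_gcs : Prop := ∀ (V1 V2 : Type) [AddCommGroup V1] [AddCommGroup V2] [Fintype V1] [Fintype V2]
  (w : V1 → V2 → ℤ) (Q : V1 → V1 → V2 → V2 → ZMod 3) (A : Finset V1) (B : Finset V2)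
  (f : V1 → ℤ) (g : V2 → ℤ),
  (∀ z ∈ A, ∀ y ∈ B, w z y = f z + g y) →
  (∀ h h' k k' z y, ((D2 k' (D1 h' (D2 k (D1 h w))) z y : ℤ) : ZMod 9)
      = 3 * ((Q h h' k k').val : ZMod 9)) →
  ((A.card : ℝ) * B.card / (Fintype.card V1 * Fintype.card V2)) ^ 8 ≤ GB Q

/-- Q3 -/
def S_box : Prop := ∀ (ι : Type) [Fintype ι] [DecidableEq ι] (A B : Finset (ι → ZMod 3))
  (I : Finset ι) (M : ι → ι → ZMod 3), AddPair A B → Rel A B I M →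
  ((A.card : ℝ) * B.card / 3 ^ Fintype.card ι) ^ 8 ≤ Bias (blk I M)

/-- Q4: structure of invertible matrices -/
def S_dich : Prop := ∀ (κ : Type) [Fintype κ] [DecidableEq κ] (M : Matrix κ κ (ZMod 3)),
  IsUnit M.det → ∃ j : ℕ,
    (∃ S' R1 R2 : Finset κ, S'.card = j ∧ Disjoint R1 R2 ∧ Spans M S' R1 ∧ Spans M S' R2) ∧
    (∃ (S'' : Finset κ) (σ : κ → κ) (P : Matrix κ κ (ZMod 3)) (lam : κ → ZMod 3),
      Fintype.card κ ≤ S''.card + 3 * j ∧ Set.InjOn σ S'' ∧ P.rank ≤ j ∧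
      (∀ i ∈ S'', lam i ≠ 0) ∧
      ∀ i ∈ S'', ∀ k ∈ S'', M (σ k) i = P k i + if i = k then lam i else 0)

/-- Q5m -/
def S_gmono : Prop := ∀ (V1 V2 V3 V4 U1 U2 U3 U4 : Type) [AddCommGroup V1] [AddCommGroup V2]
  [AddCommGroup V3] [AddCommGroup V4] [AddCommGroup U1] [AddCommGroup U2] [AddCommGroup U3]
  [AddCommGroup U4] [Fintype V1] [Fintype V2] [Fintype V3] [Fintype V4] [Fintype U1] [Fintype U2]
  [Fintype U3] [Fintype U4] (Q : V1 → V2 → V3 → V4 → ZMod 3), Add4 Q →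
  ∀ (f1 : U1 →+ V1) (f2 : U2 →+ V2) (f3 : U3 →+ V3) (f4 : U4 →+ V4),
    GB Q ≤ GB (fun a b c d => Q (f1 a) (f2 b) (f3 c) (f4 d))

/-- Q5i -/
def S_gindex : Prop := ∀ (V1 V2 V3 V4 U1 U2 U3 U4 : Type) [AddCommGroup V1] [AddCommGroup V2]
  [AddCommGroup V3] [AddCommGroup V4] [AddCommGroup U1] [AddCommGroup U2] [AddCommGroup U3]
  [AddCommGroup U4] [Fintype V1] [Fintype V2] [Fintype V3] [Fintype V4] [Fintype U1] [Fintype U2]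
  [Fintype U3] [Fintype U4] (Q : V1 → V2 → V3 → V4 → ZMod 3), Add4 Q →
  ∀ (f1 : U1 →+ V1) (f2 : U2 →+ V2) (f3 : U3 →+ V3) (f4 : U4 →+ V4) (K : ℕ),
    Fintype.card V1 ≤ K * Nat.card f1.range → Fintype.card V2 ≤ K * Nat.card f2.range →
    Fintype.card V3 ≤ K * Nat.card f3.range → Fintype.card V4 ≤ K * Nat.card f4.range →
    GB (fun a b c d => Q (f1 a) (f2 b) (f3 c) (f4 d)) ≤ (K : ℝ) ^ 4 * GB Q

/-- Q5d -/
def S_gdiag : Prop := ∀ (κ : Type) [Fintype κ] [DecidableEq κ] (c : κ → ZMod 3),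
  (∀ i, c i ≠ 0) →
  GB (fun z z' y y' : κ → ZMod 3 => ∑ i, c i * (z i * z' i * y i * y' i))
    = (19 / 27 : ℝ) ^ Fintype.card κ

/-- Q5a -/
def S_biasA : Prop := ∀ (L S : Type) [Fintype L] [Fintype S] [DecidableEq L] [DecidableEq S]
  (M : Matrix L S (ZMod 3)) (S' : Finset S) (R1 R2 : Finset L), Disjoint R1 R2 →
  Spans M S' R1 → Spans M S' R2 → Bias M ≤ (19 / 27 : ℝ) ^ S'.card

/-- Q5b -/
def S_biasB : Prop := ∀ (L S : Type) [Fintype L] [Fintype S] [DecidableEq L] [DecidableEq S]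
  (M : Matrix L S (ZMod 3)) (S'' : Finset S) (σ : S → L) (P : Matrix S S (ZMod 3))
  (lam : S → ZMod 3) (j : ℕ), Set.InjOn σ S'' → P.rank ≤ j → (∀ i ∈ S'', lam i ≠ 0) →
  (∀ i ∈ S'', ∀ k ∈ S'', M (σ k) i = P k i + if i = k then lam i else 0) →
  Bias M ≤ (3 : ℝ) ^ (4 * j) * (19 / 27 : ℝ) ^ S''.card

/-- Q5c -/
def S_biasC : Prop := ∀ (L S L' S' : Type) [Fintype L] [Fintype S] [DecidableEq L] [DecidableEq S]
  [Fintype L'] [Fintype S'] [DecidableEq L'] [DecidableEq S']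
  (M : Matrix L S (ZMod 3)) (f : L' → L) (g : S' → S), Function.Injective f →
  Function.Injective g → Bias M ≤ Bias (M.submatrix f g)

/-- Q6 -/
def S_biasrank : Prop := ∀ (L S : Type) [Fintype L] [Fintype S] [DecidableEq L] [DecidableEq S]
  (M : Matrix L S (ZMod 3)), Bias M ^ 20 ≤ (19 / 27 : ℝ) ^ M.rank

/-- Q7 -/
def S_binom2 : Prop := ∀ n m δ d : ℕ, d ≤ m → m < δ → m + δ < n →
  (2 : ℝ) ^ (δ - d) * ((n - m).choose (δ - d) : ℝ) *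
      ((1 - (m : ℝ) / δ) * (1 - (m : ℝ) / ((n : ℝ) - δ))) ≤
    2 ^ δ * (n.choose δ : ℝ) * (((δ : ℝ) / (2 * n)) ^ d * (((n : ℝ) - δ) / n) ^ (m - d))

/-- Q8a -/
def S_aclean : Prop := ∀ (ι : Type) [Fintype ι] [DecidableEq ι] (A B : Finset (ι → ZMod 3)),
  AddPair A B → ∀ i : ι, ¬ Cst B i → ∀ s : ZMod 3,
    ∃ A' B' : Finset (ι → ZMod 3), AddPair A' B' ∧ ∀ p : ℝ, T p A' B' =
      ∑ a ∈ A, ∑ b ∈ B, if b i = s then (if a i = s then 1 else 2) * W p a b else 0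

/-- Q8b -/
def S_joint : Prop := ∀ (ι : Type) [Fintype ι] [DecidableEq ι] (p : ℝ)
  (A B : Finset (ι → ZMod 3)), 0 < p → p < 1 → A.Nonempty → B.Nonempty → AddPair A B →
  ∀ (i : ι) (s : ZMod 3),
    (∑ a ∈ A, ∑ b ∈ B, if b i = s then (if a i = s then 1 else 2) * W p a b else 0)
      = T p A B * (be p A B i s * (2 - al p A B i s))

/-- Q9 -/
def S_phi_relax : Prop := ∀ (p : ℝ) (x y : ZMod 3 → ℝ), 1 / 2 ≤ p → p ≤ 9 / 10 →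
  x ∈ stdSimplex ℝ (ZMod 3) → y ∈ stdSimplex ℝ (ZMod 3) →
  (∀ s, y s * (2 - x s) ≤ 101 / 100) → phi p x y ≤ - ((1 - 3 * p / 2) ^ 2 / 32)

/-- Q10 -/
def S_tilt : Prop := ∀ (ι : Type) [Fintype ι] [DecidableEq ι] (A B : Finset (ι → ZMod 3)) (p : ℝ),
  0 < p → p < 1 → (∀ q : ℝ, 0 < q → q < 1 → T q A B ≤ 1) →
  T p A B ^ 2 ≤ (A.card : ℝ) * B.card / 3 ^ Fintype.card ι *
    (1 + 2 * (1 - 3 * p / 2) ^ 2) ^ Fintype.card ι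

/-- Q12a -/
def S_bp : Prop := ∀ (p : ℝ) (k j : ℕ), 1 / 4 ≤ p → p ≤ 3 / 4 →
  bp p k j ≤ 2 / Real.sqrt (k + 1)

/-- Q12b -/
def S_mode2 : Prop := ∀ n δ : ℕ, 0 < δ → δ < n →
  1 / (8 * Real.sqrt n) ≤ bp ((δ : ℝ) / n) n δ

/-- Q12c -/
def S_tri : Prop := ∀ (ι : Type) [Fintype ι] [DecidableEq ι] (b b' : ι → ZMod 3) (p : ℝ)
  (j j' : ℕ), 6 / 10 ≤ p → p ≤ 7 / 10 → Fintype.card ι ≤ 2 * j → b ≠ b' →
  (∑ z ∈ (Finset.univ : Finset (ι → ZMod 3)).filter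
      (fun z => hammingDist z b = j ∧ hammingDist z b' = j'), W p z b)
    ≤ 100 / Real.sqrt ((Fintype.card ι : ℝ) * hammingDist b b')

/-- Q13 -/
def S_alpha : Prop := ∀ (ι : Type) [Fintype ι] [DecidableEq ι] (A B : Finset (ι → ZMod 3))
  (δ : ℕ) (I : Finset ι) (M : ι → ι → ZMod 3) (p q μ₁ μ₂ : ℝ) (ρ : ℕ),
  (∀ a ∈ A, ∀ b ∈ B, hammingDist a b = δ) → Rel A B I M → 0 < p → p < 1 →
  1 - p ≤ q → p / 2 ≤ q → ρ = (blk I M).rank →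
  (∀ j, bp p (I.card - ρ) j ≤ μ₁) → (∀ j, bp p (Iᶜ.card - ρ) j ≤ μ₂) →
  T p A B ≤ (3 * q) ^ (2 * ρ) * ((ρ : ℝ) + 1) ^ 2 * (μ₁ * μ₂)

/-- Q14 -/
def S_beta : Prop := ∀ (ι : Type) [Fintype ι] [DecidableEq ι] (A B : Finset (ι → ZMod 3))
  (δ : ℕ) (I : Finset ι) (M : ι → ι → ZMod 3) (p q : ℝ) (w : ℕ),
  (∀ a ∈ A, ∀ b ∈ B, hammingDist a b = δ) → Rel A B I M → 6 / 10 ≤ p → p ≤ 7 / 10 →
  1 - p ≤ q → p / 2 ≤ q → I.card + 2 * Iᶜ.card ≤ 2 * δ → 0 < w →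
  (∀ b ∈ B, ∃ b' ∈ B, w ≤ (I.filter (fun i => b i ≠ b' i)).card) →
  T p A B ≤ (3 * q) ^ Iᶜ.card * ((Iᶜ.card : ℝ) + 1) ^ 2 *
    (100 / Real.sqrt ((I.card : ℝ) * w))

/-- Q14b -/
def S_spread : Prop := ∀ (ι : Type) [Fintype ι] [DecidableEq ι] (A B : Finset (ι → ZMod 3))
  (I : Finset ι) (M : ι → ι → ZMod 3), Rel A B I M → B.Nonempty →
  ∀ N : Finset ι, N ⊆ I → (∀ i ∈ N, ¬ Cst B i) →
    ∃ b₀ ∈ B, ∃ b₁ ∈ B, N.card ≤ Iᶜ.card * (I.filter (fun i => b₀ i ≠ b₁ i)).card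

/-- Q15a -/
def S_phi_small : Prop := ∀ (p : ℝ) (x y : ZMod 3 → ℝ), 0 < p → p < 1 →
  x ∈ stdSimplex ℝ (ZMod 3) → y ∈ stdSimplex ℝ (ZMod 3) → ∀ u : ZMod 3, (∀ s, y s ≤ y u) →
    phi p x y ≤ Real.log (p / 2 + Real.sqrt (2 * p * (1 - p))) * (1 - y u)

/-- Q15b -/
def S_rigid_small : Prop := ∀ (ι : Type) [Fintype ι] [DecidableEq ι] (p : ℝ)
  (A B : Finset (ι → ZMod 3)) (δ : ℕ),
  0 < p → p < 1 → (∀ a ∈ A, ∀ b ∈ B, hammingDist a b = δ) →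
  ∀ (I : Finset ι) (u : ι → ZMod 3),
    2 * (δ : ℝ) * p < ∑ a ∈ A.filter (fun a => ∀ i, i ∉ I → a i = u i),
        ∑ b ∈ B.filter (fun b => ∀ i ∈ I, b i = u i), W p a b →
    ∀ i, Cst A i ∨ Cst B i

end Helper27.CW
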