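import Pool.Agent.Helper27.CD.MainF
import Pool.Agent.Helper27.CW.Spec

/-! CW assembly, part A: additive pairs all of whose coordinates are nondegenerate. -/

namespace Helper27.CW

open Helper27.CD

variable {ι : Type} [Fintype ι] [DecidableEq ι]

lemma rel_swap {A B : Finset (ι → ZMod 3)} {I : Finset ι} {M : ι → ι → ZMod 3}
    (h : Rel A B I M) : Rel B A Iᶜ (fun i l => - M l i) := by
  constructor
  · intro b hb b' hb' l hl
    have hl' : l ∈ I := by simpa using hl
    rw [h.2 b hb b' hb' l hl', ← Finset.sum_neg_distrib]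
    apply Finset.sum_congr rfl
    intro i _
    ring
  · intro a ha a' ha' i hi
    have hi' : i ∉ I := by simpa using hi
    rw [h.1 a ha a' ha' i hi', compl_compl, ← Finset.sum_neg_distrib]
    apply Finset.sum_congr rfl
    intro l _
    ring

lemma T_comm (p : ℝ) (A B : Finset (ι → ZMod 3)) : T p A B = T p B A := by
  unfold T
  rw [Finset.sum_comm]
  apply Finset.sum_congr rfl
  intro b _
  apply Finset.sum_congr rfl
  intro a _
  exact P5.W_comm p a b

lemma al_swap (p : ℝ) (A B : Finset (ι → ZMod 3)) (i : ι) (s : ZMod 3) :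
    al p B A i s = be p A B i s := by
  unfold al be
  rw [T_comm p B A, Finset.sum_comm]
  congr 1
  apply Finset.sum_congr rfl
  intro a _
  apply Finset.sum_congr rfl
  intro b _
  rw [P5.W_comm p b a]

lemma be_swap (p : ℝ) (A B : Finset (ι → ZMod 3)) (i : ι) (s : ZMod 3) :
    be p B A i s = al p A B i s := (al_swap p B A i s).symm

lemma addPair_swap {A B : Finset (ι → ZMod 3)} (h : AddPair A B) : AddPair B A := by
  intro b hb b' hb' a ha a' ha'
  have := h a ha a' ha' b hb b' hb'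
  rw [hammingDist_comm b a, hammingDist_comm b' a', hammingDist_comm b a', hammingDist_comm b' a]
  omega

lemma T_le_one (hinfo : S_info) (hent : S_ent) (hgap : S_phi_gap) (p : ℝ) (h0 : 0 < p)
    (h1 : p < 1) (A B : Finset (ι → ZMod 3)) (hadd : AddPair A B) : T p A B ≤ 1 := by
  rcases A.eq_empty_or_nonempty with rfl | hA
  · simp [T]
  rcases B.eq_empty_or_nonempty with rfl | hB
  · simp [T]
  obtain ⟨I, hI1, hI2⟩ := hinfo ι A B hadd
  have hE := hent ι p A B h0 h1 hA hB hadd I hI1 hI2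
  have hl : Real.log (T p A B) ≤ 0 := by
    refine hE.trans (add_nonpos ?_ ?_)
    · apply Finset.sum_nonpos
      intro i _
      exact phi_nonpos hgap p h0 h1 _ _ (al_simplex p h0 h1 A B hA hB i)
        (be_simplex p h0 h1 A B hA hB i)
    · apply Finset.sum_nonpos
      intro i _
      exact phi_nonpos hgap p h0 h1 _ _ (be_simplex p h0 h1 A B hA hB i)
        (al_simplex p h0 h1 A B hA hB i)
  by_contra hcon
  push Not at hcon
  have := Real.log_pos hcon
  linarith

/-- the relaxed cleaning inequality -/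
lemma relaxed (hinfo : S_info) (hent : S_ent) (hgap : S_phi_gap) (hac : S_aclean)
    (hj : S_joint) (p : ℝ) (h0 : 0 < p) (h1 : p < 1)
    (A B : Finset (ι → ZMod 3)) (hA : A.Nonempty) (hB : B.Nonempty) (hadd : AddPair A B)
    (i : ι) (hi : ¬ Cst B i) (s : ZMod 3) :
    T p A B * (be p A B i s * (2 - al p A B i s)) ≤ 1 := by
  obtain ⟨A', B', hadd', hT⟩ := hac ι A B hadd i hi s
  rw [← hj ι p A B h0 h1 hA hB hadd i s, ← hT p]
  exact T_le_one hinfo hent hgap p h0 h1 A' B' hadd'

lemma entropy_bound (hinfo : S_info) (hent : S_ent) (hgap : S_phi_gap) (hac : S_aclean)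
    (hj : S_joint) (hrel : S_phi_relax) (p : ℝ) (h0 : 1 / 2 ≤ p) (h1 : p ≤ 9 / 10)
    (A B : Finset (ι → ZMod 3)) (hA : A.Nonempty) (hB : B.Nonempty) (hadd : AddPair A B)
    (hN : ∀ i, ¬ Cst A i ∧ ¬ Cst B i) (hT : 100 / 101 ≤ T p A B) :
    Real.log (T p A B) ≤ - ((1 - 3 * p / 2) ^ 2 / 32) * Fintype.card ι := by
  have hp0 : 0 < p := by linarith
  have hp1 : p < 1 := by linarith
  obtain ⟨I, hI1, hI2⟩ := hinfo ι A B hadd
  have hE := hent ι p A B hp0 hp1 hA hB hadd I hI1 hI2
  set c : ℝ := (1 - 3 * p / 2) ^ 2 / 32 with hc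
  have hTpos : 0 < T p A B := by linarith
  have key : ∀ x : ℝ, T p A B * x ≤ 1 → x ≤ 101 / 100 := by
    intro x hx
    by_contra hcon
    push Not at hcon
    have h2 : T p A B * (101 / 100) < T p A B * x := mul_lt_mul_of_pos_left hcon hTpos
    have h3 : (1 : ℝ) ≤ T p A B * (101 / 100) := by linarith
    linarith
  have e1 : ∑ i ∈ I, phi p (al p A B i) (be p A B i) ≤ ∑ i ∈ I, (-c) := by
    apply Finset.sum_le_sum
    intro i _
    apply hrel p _ _ h0 h1 (al_simplex p hp0 hp1 A B hA hB i) (be_simplex p hp0 hp1 A B hA hB i)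
    intro s
    exact key _ (relaxed hinfo hent hgap hac hj p hp0 hp1 A B hA hB hadd i (hN i).2 s)
  have e2 : ∑ i ∈ Iᶜ, phi p (be p A B i) (al p A B i) ≤ ∑ i ∈ Iᶜ, (-c) := by
    apply Finset.sum_le_sum
    intro i _
    apply hrel p _ _ h0 h1 (be_simplex p hp0 hp1 A B hA hB i) (al_simplex p hp0 hp1 A B hA hB i)
    intro s
    have := relaxed hinfo hent hgap hac hj p hp0 hp1 B A hB hA (addPair_swap hadd) i (hN i).1 s
    rw [al_swap, be_swap, T_comm] at this
    exact key _ this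
  calc Real.log (T p A B) ≤ _ := hE
    _ ≤ _ := add_le_add e1 e2
    _ = ∑ i : ι, (-c) := Finset.sum_add_sum_compl I _
    _ = -c * Fintype.card ι := by
        rw [Finset.sum_const, Finset.card_univ, nsmul_eq_mul]; ring

/-- a relation with nondegenerate coordinates has a nonzero matrix, so bias at most `19/27` -/
lemma bias_small (hbB : S_biasB) (A B : Finset (ι → ZMod 3)) (I : Finset ι) (M : ι → ι → ZMod 3)
    (hrel : Rel A B I M) (i₀ : ι) (hN : ¬ Cst A i₀ ∧ ¬ Cst B i₀) :
    Bias (blk I M) ≤ 19 / 27 := by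
  have hex : ∃ l, l ∉ I ∧ ∃ i, i ∈ I ∧ M l i ≠ 0 := by
    by_contra hcon
    push Not at hcon
    by_cases hi : i₀ ∈ I
    · apply hN.2
      intro b hb b' hb'
      have := hrel.2 b hb b' hb' i₀ hi
      rw [Finset.sum_eq_zero (fun l hl => by
        rw [hcon l (Finset.mem_compl.mp hl) i₀ hi, zero_mul]), neg_zero] at this
      exact sub_eq_zero.mp this
    · apply hN.1
      intro a ha a' ha'
      have := hrel.1 a ha a' ha' i₀ hi
      rw [Finset.sum_eq_zero (fun i hi' => by rw [hcon i₀ hi i hi', zero_mul])] at this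
      exact sub_eq_zero.mp this
  obtain ⟨l, hl, i, hi, hne⟩ := hex
  have := hbB {l // l ∈ Iᶜ} {i // i ∈ I} (blk I M) {⟨i, hi⟩}
    (fun _ => ⟨l, Finset.mem_compl.mpr hl⟩) 0 (fun _ => M l i) 0
    (by
      intro x hx y hy _
      rw [Finset.mem_coe, Finset.mem_singleton] at hx hy
      rw [hx, hy])
    (by simp) (fun _ _ => hne) (by
      intro x hx y hy
      rw [Finset.mem_singleton] at hx hy
      subst hx hy
      simp [blk])
  rw [Finset.card_singleton] at this
  norm_num at this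
  linarith

lemma pow_le_exp (t2 : ℝ) (ht : 0 ≤ t2) (n : ℕ) :
    (1 + 2 * t2) ^ n ≤ Real.exp (2 * t2 * n) := by
  have h := Real.add_one_le_exp (2 * t2)
  calc (1 + 2 * t2) ^ n ≤ (Real.exp (2 * t2)) ^ n :=
        pow_le_pow_left₀ (by linarith) (by linarith) n
    _ = Real.exp (2 * t2 * n) := by rw [← Real.exp_nat_mul]; ring_nf

/-- Q11 -/
theorem abs_bound (hinfo : S_info) (hent : S_ent) (hgap : S_phi_gap) (hac : S_aclean)
    (hj : S_joint) (hrel : S_phi_relax) (hinfo2 : S_info2) (hbox : S_box) (hbB : S_biasB)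
    (htilt : S_tilt) (p : ℝ) (h0 : 1 / 2 ≤ p) (h1 : p ≤ 9 / 10)
    (A B : Finset (ι → ZMod 3)) (hA : A.Nonempty) (hB : B.Nonempty) (hadd : AddPair A B)
    (i₀ : ι) (hN : ∀ i, ¬ Cst A i ∧ ¬ Cst B i) :
    T p A B ≤ 1 - 1 / 2000 := by
  by_contra hcon
  push Not at hcon
  have hp0 : 0 < p := by linarith
  have hp1 : p < 1 := by linarith
  have hlog := entropy_bound hinfo hent hgap hac hj hrel p h0 h1 A B hA hB hadd hN
    (by linarith)
  obtain ⟨I, M, hM⟩ := hinfo2 ι A B hadd
  have hb := (hbox ι A B I M hadd hM).trans (bias_small hbB A B I M hM i₀ (hN i₀))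
  have ht := htilt ι A B p hp0 hp1
    (fun q hq0 hq1 => T_le_one hinfo hent hgap q hq0 hq1 A B hadd)
  set t2 : ℝ := (1 - 3 * p / 2) ^ 2 with ht2
  have ht20 : 0 ≤ t2 := by rw [ht2]; positivity
  set x : ℝ := t2 * Fintype.card ι with hx
  have hx0 : 0 ≤ x := by positivity
  -- lower bound for the logarithm
  have hl1 : -(1 / 1999 : ℝ) ≤ Real.log (T p A B) := by
    have h3 : Real.log (1999 / 2000) ≤ Real.log (T p A B) :=
      Real.log_le_log (by norm_num) (by linarith)
    have h4 := Real.one_sub_inv_le_log_of_pos (x := (1999 / 2000 : ℝ)) (by norm_num)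
    have h5 : (1 : ℝ) - (1999 / 2000)⁻¹ = -(1 / 1999) := by norm_num
    linarith
  have hx1 : x ≤ 32 / 1999 := by
    have : -(t2 / 32) * (Fintype.card ι : ℝ) = - (x / 32) := by rw [hx]; ring
    rw [this] at hlog
    linarith
  have hpow := pow_le_exp t2 ht20 (Fintype.card ι)
  have e1 : 2 * t2 * (Fintype.card ι : ℝ) = 2 * x := by rw [hx]; ring
  rw [e1] at hpow
  set T0 : ℝ := (A.card : ℝ) * B.card / 3 ^ Fintype.card ι with hT0
  have hT00 : 0 ≤ T0 := by positivity
  have h6 : T p A B ^ 2 ≤ T0 * Real.exp (2 * x) :=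
    ht.trans (mul_le_mul_of_nonneg_left hpow hT00)
  have h7 : (T p A B ^ 2) ^ 8 ≤ (T0 * Real.exp (2 * x)) ^ 8 :=
    pow_le_pow_left₀ (by positivity) h6 8
  have h8 : (T0 * Real.exp (2 * x)) ^ 8 = T0 ^ 8 * Real.exp (16 * x) := by
    rw [mul_pow, ← Real.exp_nat_mul]
    congr 2
    push_cast
    ring
  have hy : 16 * x ≤ 512 / 1999 := by linarith
  have h9 : Real.exp (16 * x) ≤ 27 / 20 := by
    have h10 : Real.exp (16 * x) ≤ Real.exp (512 / 1999) := Real.exp_le_exp.mpr hy
    have h11 := Real.add_one_le_exp (-(512 / 1999 : ℝ))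
    rw [Real.exp_neg] at h11
    have h12 : 0 < Real.exp (512 / 1999) := Real.exp_pos _
    have h13 : (-(512 / 1999 : ℝ) + 1) * Real.exp (512 / 1999) ≤ 1 := by
      have := mul_le_mul_of_nonneg_right h11 h12.le
      rwa [inv_mul_cancel₀ h12.ne'] at this
    have h14 : Real.exp (512 / 1999) ≤ 27 / 20 := by
      by_contra hc
      push Not at hc
      nlinarith
    linarith
  have h15 : T0 ^ 8 * Real.exp (16 * x) ≤ 19 / 27 * (27 / 20) :=
    mul_le_mul hb h9 (Real.exp_pos _).le (by norm_num)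
  have h16 : (1999 / 2000 : ℝ) ^ 16 ≤ T p A B ^ 16 :=
    pow_le_pow_left₀ (by norm_num) (by linarith) 16
  have h17 : (T p A B ^ 2) ^ 8 = T p A B ^ 16 := by ring
  have h18 : (19 / 27 * (27 / 20) : ℝ) < (1999 / 2000 : ℝ) ^ 16 := by norm_num
  linarith

end Helper27.CW
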