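import Pool.Agent.Helper27.CW.AsmA

/-! CW assembly, part B: few nondegenerate coordinates, `δ / n` in `[1/2, 9/10]`. -/

namespace Helper27.CW

open Helper27.CD

variable {ι : Type} [Fintype ι] [DecidableEq ι]

/-- reduction to the nondegenerate coordinates -/
lemma reduce2 (hfib : S_fibre) (hbin : S_binom2) (A B : Finset (ι → ZMod 3)) (δ : ℕ)
    (h : ∀ a ∈ A, ∀ b ∈ B, hammingDist a b = δ) (N : Finset ι)
    (hN : ∀ i, i ∉ N → Cst A i ∨ Cst B i) (hm : N.card < δ) (hm2 : N.card + δ < Fintype.card ι) :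
    (A.card * B.card : ℝ) * ((1 - (N.card : ℝ) / δ) *
        (1 - (N.card : ℝ) / ((Fintype.card ι : ℝ) - δ))) ≤
      2 ^ δ * ((Fintype.card ι).choose δ : ℝ) *
      T ((δ : ℝ) / Fintype.card ι) (A.image (res N)) (B.image (res N)) := by
  have h1 := hfib ι A B δ h N hN
  have h2 : (A.card * B.card : ℝ) ≤ ∑ a ∈ A.image (res N), ∑ b ∈ B.image (res N),
      (2 : ℝ) ^ (δ - hammingDist a b) *
        ((Fintype.card ι - N.card).choose (δ - hammingDist a b) : ℝ) := by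
    exact_mod_cast h1
  have hn0 : (0 : ℝ) < Fintype.card ι := by
    have : 0 < Fintype.card ι := by omega
    exact_mod_cast this
  have hδ0 : (0 : ℝ) < δ := by
    have : 0 < δ := by omega
    exact_mod_cast this
  have hδn : (0 : ℝ) < (Fintype.card ι : ℝ) - δ := by
    have : δ < Fintype.card ι := by omega
    have : (δ : ℝ) < Fintype.card ι := by exact_mod_cast this
    linarith
  have hmδ : (N.card : ℝ) ≤ δ := by exact_mod_cast hm.le
  have hmδ2 : (N.card : ℝ) ≤ (Fintype.card ι : ℝ) - δ := by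
    have : ((N.card + δ : ℕ) : ℝ) ≤ Fintype.card ι := by exact_mod_cast hm2.le
    push_cast at this
    linarith
  have hK : 0 ≤ (1 - (N.card : ℝ) / δ) * (1 - (N.card : ℝ) / ((Fintype.card ι : ℝ) - δ)) := by
    apply mul_nonneg
    · rw [sub_nonneg, div_le_one hδ0]; exact hmδ
    · rw [sub_nonneg, div_le_one hδn]; exact hmδ2
  refine (mul_le_mul_of_nonneg_right h2 hK).trans ?_
  unfold T
  rw [Finset.mul_sum, Finset.sum_mul]
  apply Finset.sum_le_sum
  intro x hx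
  rw [Finset.mul_sum, Finset.sum_mul]
  apply Finset.sum_le_sum
  intro y hy
  obtain ⟨a, ha, rfl⟩ := Finset.mem_image.mp hx
  obtain ⟨b, hb, rfl⟩ := Finset.mem_image.mp hy
  have hd : hammingDist (res N a) (res N b) ≤ N.card := by
    rw [dist_res]; exact Finset.card_filter_le _ _
  have h3 := hbin (Fintype.card ι) N.card δ (hammingDist (res N a) (res N b)) hd hm hm2
  refine h3.trans (le_of_eq ?_)
  have hcard : Fintype.card (↥N) = N.card := Fintype.card_coe N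
  rw [W_eq, hcard]
  have e1 : (δ : ℝ) / Fintype.card ι / 2 = (δ : ℝ) / (2 * Fintype.card ι) := by
    rw [div_div, mul_comm]
  have e2 : 1 - (δ : ℝ) / Fintype.card ι = ((Fintype.card ι : ℝ) - δ) / Fintype.card ι := by
    rw [sub_div, div_self hn0.ne']
  rw [e1, e2]

/-- few nondegenerate coordinates: not maximal -/
theorem near_few (hinfo : S_info) (hent : S_ent) (hgap : S_phi_gap) (hac : S_aclean)
    (hj : S_joint) (hrel : S_phi_relax) (hinfo2 : S_info2) (hbox : S_box) (hbB : S_biasB)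
    (htilt : S_tilt) (hfib : S_fibre) (hbin : S_binom2)
    (A B : Finset (ι → ZMod 3)) (δ : ℕ) (hA : A.Nonempty) (hB : B.Nonempty)
    (h : ∀ a ∈ A, ∀ b ∈ B, hammingDist a b = δ) (N : Finset ι)
    (hN1 : ∀ i ∈ N, ¬ Cst A i ∧ ¬ Cst B i)
    (hN2 : ∀ i, i ∉ N → Cst A i ∨ Cst B i) (hm1 : 0 < N.card)
    (hm2 : 100000 * N.card ≤ Fintype.card ι)
    (hp1 : (Fintype.card ι : ℝ) ≤ 2 * δ) (hp2 : 10 * (δ : ℝ) ≤ 9 * Fintype.card ι) :
    (A.card * B.card : ℝ) < 2 ^ δ * ((Fintype.card ι).choose δ : ℝ) := by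
  obtain ⟨n, hn⟩ : ∃ n : ℕ, n = Fintype.card ι := ⟨_, rfl⟩
  obtain ⟨m, hm⟩ : ∃ m : ℕ, m = N.card := ⟨_, rfl⟩
  have hmr : (100000 : ℝ) * (m : ℝ) ≤ n := by
    rw [hm, hn]; exact_mod_cast hm2
  have hm1r : (1 : ℝ) ≤ m := by rw [hm]; exact_mod_cast hm1
  rw [← hn] at hp1 hp2
  have hn0 : (0 : ℝ) < n := by linarith
  have hδ0 : (0 : ℝ) < δ := by linarith
  have hlt1 : N.card < δ := by
    rw [← hm]
    have : (m : ℝ) < δ := by linarith
    exact_mod_cast this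
  have hlt2 : N.card + δ < Fintype.card ι := by
    rw [← hm, ← hn]
    have : ((m + δ : ℕ) : ℝ) < n := by push_cast; linarith
    exact_mod_cast this
  have hred := reduce2 hfib hbin A B δ h N hN2 hlt1 hlt2
  rw [← hn, ← hm] at hred
  obtain ⟨i₀, hi₀⟩ := Finset.card_pos.mp hm1
  have hpa : 1 / 2 ≤ (δ : ℝ) / n := by
    rw [le_div_iff₀ hn0]; linarith
  have hpb : (δ : ℝ) / n ≤ 9 / 10 := by
    rw [div_le_iff₀ hn0]; linarith
  have habs := abs_bound hinfo hent hgap hac hj hrel hinfo2 hbox hbB htilt ((δ : ℝ) / n) hpa hpb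
    (A.image (res N)) (B.image (res N)) (hA.image _) (hB.image _)
    (addPair_res A B (addPair_of_const A B δ h) N hN2) ⟨i₀, hi₀⟩
    (fun i => ⟨not_cst_res A N i i.2 (hN1 i i.2).1, not_cst_res B N i i.2 (hN1 i i.2).2⟩)
  have hch : 0 < (Fintype.card ι).choose δ := Nat.choose_pos (by omega)
  have hF : (0 : ℝ) < 2 ^ δ * (((Fintype.card ι).choose δ : ℕ) : ℝ) := by
    have : (0 : ℝ) < ((Fintype.card ι).choose δ : ℕ) := by exact_mod_cast hch
    positivity
  rw [← hn] at hF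
  have k1 : 1 - 2 / 100000 ≤ 1 - (m : ℝ) / δ := by
    have : (m : ℝ) / δ ≤ 2 / 100000 := by
      rw [div_le_iff₀ hδ0]; linarith
    linarith
  have k2 : 1 - 10 / 100000 ≤ 1 - (m : ℝ) / ((n : ℝ) - δ) := by
    have : (m : ℝ) / ((n : ℝ) - δ) ≤ 10 / 100000 := by
      rw [div_le_iff₀ (by linarith)]; linarith
    linarith
  have k3 : (1 - 2 / 100000 : ℝ) * (1 - 10 / 100000) ≤
      (1 - (m : ℝ) / δ) * (1 - (m : ℝ) / ((n : ℝ) - δ)) :=
    mul_le_mul k1 k2 (by norm_num) (by linarith)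
  have k4 : (1 - 1 / 2000 : ℝ) < (1 - 2 / 100000 : ℝ) * (1 - 10 / 100000) := by norm_num
  rw [← hn]
  by_contra hcon
  push Not at hcon
  have k5 := mul_le_mul_of_nonneg_left habs hF.le
  have k6 : (2 ^ δ * ((n.choose δ : ℕ) : ℝ)) *
      ((1 - (m : ℝ) / δ) * (1 - (m : ℝ) / ((n : ℝ) - δ))) ≤
      (A.card * B.card : ℝ) * ((1 - (m : ℝ) / δ) * (1 - (m : ℝ) / ((n : ℝ) - δ))) :=
    mul_le_mul_of_nonneg_right hcon (by linarith)
  have k7 : (2 ^ δ * ((n.choose δ : ℕ) : ℝ)) * (1 - 1 / 2000) <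
      (2 ^ δ * ((n.choose δ : ℕ) : ℝ)) *
      ((1 - (m : ℝ) / δ) * (1 - (m : ℝ) / ((n : ℝ) - δ))) :=
    mul_lt_mul_of_pos_left (by linarith) hF
  linarith

end Helper27.CW
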