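import Pool.Agent.Helper27.CW.AsmB

/-! CW assembly, part C: many nondegenerate coordinates, `δ / n` near `2/3`. -/

namespace Helper27.CW

open Helper27.CD

/-- numerical part: `t² n ≤ K log n` -/
lemma stepA (n m p t2 Tt : ℝ) (hn : 64 ≤ n) (hp : 6 / 10 ≤ p) (ht2 : 0 ≤ t2)
    (hm : n ≤ 100000 * m) (hT : 1 / (8 * Real.sqrt n) ≤ Tt)
    (hlog : Real.log Tt ≤ - (t2 * p / 16) * m) :
    t2 * n ≤ 2700000 * Real.log n ∧ - Real.log n ≤ Real.log Tt := by
  have hs : 8 ≤ Real.sqrt n := by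
    have : (8 : ℝ) = Real.sqrt 64 := by
      rw [show (64 : ℝ) = 8 ^ 2 by norm_num, Real.sqrt_sq (by norm_num)]
    rw [this]
    exact Real.sqrt_le_sqrt hn
  have hs2 : Real.sqrt n * Real.sqrt n = n := Real.mul_self_sqrt (by linarith)
  have h1 : 8 * Real.sqrt n ≤ n := by nlinarith
  have h2 : - Real.log n ≤ Real.log Tt := by
    rw [← Real.log_inv]
    apply Real.log_le_log (by positivity)
    refine le_trans ?_ hT
    rw [inv_eq_one_div]
    exact one_div_le_one_div_of_le (by positivity) h1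
  refine ⟨?_, h2⟩
  have h3 : t2 * p / 16 * m ≤ Real.log n := by linarith
  have hm0 : 0 ≤ m := by linarith
  have h4 : t2 * (6 / 10) / 16 * (n / 100000) ≤ t2 * p / 16 * m := by
    apply mul_le_mul _ (by linarith) (by positivity) (by positivity)
    apply div_le_div_of_nonneg_right _ (by norm_num)
    exact mul_le_mul_of_nonneg_left hp ht2
  have h5 : 0 ≤ Real.log n := Real.log_nonneg (by linarith)
  nlinarith

/-- numerical part: the rank is small -/
lemma stepB (n t2 Tt T0 Bi : ℝ) (ρ N : ℕ) (hn : 64 ≤ n) (hN : (N : ℝ) = n)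
    (ht2 : 0 ≤ t2) (h1 : t2 * n ≤ 2700000 * Real.log n) (hTpos : 0 < Tt)
    (h2 : - Real.log n ≤ Real.log Tt) (hT0 : 0 ≤ T0)
    (h3 : Tt ^ 2 ≤ T0 * (1 + 2 * t2) ^ N) (h4 : T0 ^ 8 ≤ Bi)
    (h5 : Bi ^ 20 ≤ (19 / 27 : ℝ) ^ ρ) : (ρ : ℝ) ≤ 3000000000 * Real.log n := by
  have hl : 0 ≤ Real.log n := Real.log_nonneg (by linarith)
  have e := pow_le_exp t2 ht2 N
  rw [hN] at e
  have hT0pos : 0 < T0 := by
    rcases hT0.lt_or_eq with h | h
    · exact h
    · exfalso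
      rw [← h, zero_mul] at h3
      have : 0 < Tt ^ 2 := by positivity
      linarith
  have e1 : Tt ^ 2 ≤ T0 * Real.exp (2 * t2 * n) :=
    h3.trans (mul_le_mul_of_nonneg_left e hT0)
  have e2 : 2 * Real.log Tt ≤ Real.log T0 + 2 * t2 * n := by
    have := Real.log_le_log (by positivity) e1
    rw [Real.log_pow, Real.log_mul hT0pos.ne' (Real.exp_pos _).ne', Real.log_exp] at this
    exact_mod_cast this
  have e3 : - (5400002 * Real.log n) ≤ Real.log T0 := by nlinarith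
  have e4 : T0 ^ 160 ≤ (19 / 27 : ℝ) ^ ρ := by
    have : T0 ^ 160 = (T0 ^ 8) ^ 20 := by ring
    rw [this]
    exact (pow_le_pow_left₀ (by positivity) h4 20).trans h5
  have e5 := Real.log_le_log (by positivity) e4
  rw [Real.log_pow, Real.log_pow] at e5
  have e6 : Real.log (19 / 27) ≤ 19 / 27 - 1 := Real.log_le_sub_one_of_pos (by norm_num)
  have e7 : (ρ : ℝ) * Real.log (19 / 27) ≤ (ρ : ℝ) * (19 / 27 - 1) :=
    mul_le_mul_of_nonneg_left e6 (Nat.cast_nonneg ρ)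
  push_cast at e5
  nlinarith

lemma exp_one_le_three : Real.exp 1 ≤ 3 := by
  have := Real.exp_one_lt_d9
  linarith

lemma pow_small (t : ℝ) (ht : 0 ≤ t) (k : ℕ) (h : 2 * t * k ≤ 1) : (1 + 2 * t) ^ k ≤ 3 := by
  have e := pow_le_exp t ht k
  exact e.trans ((Real.exp_le_exp.mpr h).trans exp_one_le_three)

/-- `4 |t| ρ ≤ 1` and the like -/
lemma small_of_sq (t k n X : ℝ) (ht : 0 ≤ t) (hk : 0 ≤ k) (hn : 0 < n) (h1 : t ^ 2 * n ≤ X)
    (h2 : 4 * X * k ^ 2 ≤ n) : 2 * t * k ≤ 1 := by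
  have h3 : (2 * t * k) ^ 2 * n ≤ 1 * n := by
    calc (2 * t * k) ^ 2 * n = 4 * k ^ 2 * (t ^ 2 * n) := by ring
      _ ≤ 4 * k ^ 2 * X := mul_le_mul_of_nonneg_left h1 (by positivity)
      _ = 4 * X * k ^ 2 := by ring
      _ ≤ n := h2
      _ = 1 * n := (one_mul n).symm
  have h4 : (2 * t * k) ^ 2 ≤ 1 := le_of_mul_le_mul_right h3 hn
  have h5 : 0 ≤ 2 * t * k := by positivity
  nlinarith

/-- numerical part of (α) -/
lemma stepC (n r V U1 U2 Tt P : ℝ) (hn : 64 ≤ n) (hr : 0 ≤ r)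
    (hV : 73728 * (r + 1) ^ 4 < V) (hU : n * V / 8 ≤ U1 * U2) (hU1 : 0 < U1) (hU2 : 0 < U2)
    (hT : 1 / (8 * Real.sqrt n) ≤ Tt) (hP0 : 0 ≤ P) (hP : P ≤ 3)
    (h : Tt ≤ P * (r + 1) ^ 2 * ((2 / Real.sqrt U1) * (2 / Real.sqrt U2))) : False := by
  have hn0 : 0 < n := by linarith
  have hr4 : 0 < (r + 1) ^ 4 := by positivity
  have hV0 : 0 < V := by linarith
  have hs1 : 0 < Real.sqrt U1 := Real.sqrt_pos.mpr hU1
  have hs2 : 0 < Real.sqrt U2 := Real.sqrt_pos.mpr hU2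
  have hsn : 0 < Real.sqrt n := Real.sqrt_pos.mpr hn0
  have q1 : Real.sqrt U1 ^ 2 = U1 := Real.sq_sqrt hU1.le
  have q2 : Real.sqrt U2 ^ 2 = U2 := Real.sq_sqrt hU2.le
  have qn : Real.sqrt n ^ 2 = n := Real.sq_sqrt hn0.le
  have h1 : 1 / (8 * Real.sqrt n) ≤ 3 * (r + 1) ^ 2 * (2 / Real.sqrt U1 * (2 / Real.sqrt U2)) := by
    refine (hT.trans h).trans ?_
    apply mul_le_mul_of_nonneg_right _ (by positivity)
    exact mul_le_mul_of_nonneg_right hP (by positivity)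
  have h2 : 3 * (r + 1) ^ 2 * (2 / Real.sqrt U1 * (2 / Real.sqrt U2))
      = 12 * (r + 1) ^ 2 / (Real.sqrt U1 * Real.sqrt U2) := by
    field_simp
    ring
  rw [h2, div_le_div_iff₀ (by positivity) (by positivity), one_mul] at h1
  have h3 : (Real.sqrt U1 * Real.sqrt U2) ^ 2 ≤ (12 * (r + 1) ^ 2 * (8 * Real.sqrt n)) ^ 2 :=
    pow_le_pow_left₀ (by positivity) h1 2
  have h4 : (Real.sqrt U1 * Real.sqrt U2) ^ 2 = U1 * U2 := by rw [mul_pow, q1, q2]
  have h5 : (12 * (r + 1) ^ 2 * (8 * Real.sqrt n)) ^ 2 = 9216 * (r + 1) ^ 4 * n := by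
    calc (12 * (r + 1) ^ 2 * (8 * Real.sqrt n)) ^ 2
        = 9216 * (r + 1) ^ 4 * (Real.sqrt n ^ 2) := by ring
      _ = _ := by rw [qn]
  rw [h4, h5] at h3
  have h6 : n * V / 8 ≤ 9216 * (r + 1) ^ 4 * n := hU.trans h3
  nlinarith

/-- numerical part of (β) -/
lemma stepD (n v V U w Tt P : ℝ) (hn : 64 ≤ n) (hv : 0 ≤ v) (hvV : v ≤ V) (hV1 : 1 ≤ V)
    (hbig : 10 ^ 13 * (V + 1) ^ 6 ≤ n) (hU : n ≤ 2 * U) (hw : n ≤ 400000 * V * w)
    (hT : 1 / (8 * Real.sqrt n) ≤ Tt) (hP0 : 0 ≤ P) (hP : P ≤ 3)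
    (h : Tt ≤ P * (v + 1) ^ 2 * (100 / Real.sqrt (U * w))) : False := by
  have hn0 : 0 < n := by linarith
  have hU0 : 0 < U := by linarith
  have hV0 : 0 < V := by linarith
  have hw0 : 0 < w := by
    by_contra hc
    push Not at hc
    have : 400000 * V * w ≤ 0 := mul_nonpos_of_nonneg_of_nonpos (by positivity) hc
    linarith
  have hUw : 0 < U * w := by positivity
  have hs : 0 < Real.sqrt (U * w) := Real.sqrt_pos.mpr hUw
  have hsn : 0 < Real.sqrt n := Real.sqrt_pos.mpr hn0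
  have qU : Real.sqrt (U * w) ^ 2 = U * w := Real.sq_sqrt hUw.le
  have qn : Real.sqrt n ^ 2 = n := Real.sq_sqrt hn0.le
  have h1 : 1 / (8 * Real.sqrt n) ≤ 3 * (V + 1) ^ 2 * (100 / Real.sqrt (U * w)) := by
    refine (hT.trans h).trans ?_
    apply mul_le_mul_of_nonneg_right _ (by positivity)
    apply mul_le_mul hP _ (by positivity) (by norm_num)
    exact pow_le_pow_left₀ (by linarith) (by linarith) 2
  have h2 : 3 * (V + 1) ^ 2 * (100 / Real.sqrt (U * w))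
      = 300 * (V + 1) ^ 2 / Real.sqrt (U * w) := by ring
  rw [h2, div_le_div_iff₀ (by positivity) (by positivity), one_mul] at h1
  have h3 : Real.sqrt (U * w) ^ 2 ≤ (300 * (V + 1) ^ 2 * (8 * Real.sqrt n)) ^ 2 :=
    pow_le_pow_left₀ (by positivity) h1 2
  have h5 : (300 * (V + 1) ^ 2 * (8 * Real.sqrt n)) ^ 2 = 5760000 * (V + 1) ^ 4 * n := by
    calc (300 * (V + 1) ^ 2 * (8 * Real.sqrt n)) ^ 2
        = 5760000 * (V + 1) ^ 4 * (Real.sqrt n ^ 2) := by ring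
      _ = _ := by rw [qn]
  rw [qU, h5] at h3
  -- U w ≥ n² / (800000 V)
  have h6 : n * n ≤ (2 * U) * (400000 * V * w) :=
    mul_le_mul hU hw hn0.le (by linarith)
  have h7 : n * n ≤ 800000 * V * (5760000 * (V + 1) ^ 4 * n) := by
    calc n * n ≤ (2 * U) * (400000 * V * w) := h6
      _ = 800000 * V * (U * w) := by ring
      _ ≤ _ := mul_le_mul_of_nonneg_left h3 (by positivity)
  have h8 : n ≤ 800000 * V * (5760000 * (V + 1) ^ 4) := by
    have : n * n ≤ (800000 * V * (5760000 * (V + 1) ^ 4)) * n := by linarith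
    exact le_of_mul_le_mul_right this hn0
  have h9 : 800000 * V * (5760000 * (V + 1) ^ 4) ≤ 800000 * 5760000 * (V + 1) ^ 6 := by
    have : V ≤ (V + 1) ^ 2 := by nlinarith
    have h10 : V * (V + 1) ^ 4 ≤ (V + 1) ^ 2 * (V + 1) ^ 4 :=
      mul_le_mul_of_nonneg_right this (by positivity)
    nlinarith
  have h11 : 0 < (V + 1) ^ 6 := by positivity
  nlinarith

/-- the threshold for `min (|I|, |Iᶜ|)` -/
noncomputable def thr (n : ℝ) : ℝ := 100000 * (3000000000 * Real.log n + 2) ^ 4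

variable {ι : Type} [Fintype ι] [DecidableEq ι]

/-- (β), one orientation -/
lemma betaCase (hbeta : S_beta) (hspread : S_spread)
    (A B : Finset (ι → ZMod 3)) (δ : ℕ) (hB : B.Nonempty)
    (h : ∀ a ∈ A, ∀ b ∈ B, hammingDist a b = δ) (N : Finset ι) (hN : ∀ i ∈ N, ¬ Cst B i)
    (I : Finset ι) (M : ι → ι → ZMod 3) (hM : Rel A B I M)
    (n p : ℝ) (hn : n = Fintype.card ι) (hn64 : 64 ≤ n) (hpδ : p = (δ : ℝ) / n)
    (hp1 : 6 / 10 ≤ p) (hp2 : p ≤ 7 / 10) (hm : n ≤ 100000 * (N.card : ℝ))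
    (hT : 1 / (8 * Real.sqrt n) ≤ T p A B)
    (ht : (1 - 3 * p / 2) ^ 2 * n ≤ 2700000 * Real.log n)
    (hbig : 10 ^ 13 * (thr n + 1) ^ 6 ≤ n)
    (hv : ((Iᶜ.card : ℕ) : ℝ) ≤ thr n) : False := by
  have hn0 : 0 < n := by linarith
  have hlog : 0 ≤ Real.log n := Real.log_nonneg (by linarith)
  set V := thr n with hVdef
  have hV1 : 1 ≤ V := by
    rw [hVdef, thr]
    have : (1 : ℝ) ≤ (3000000000 * Real.log n + 2) ^ 4 := one_le_pow₀ (by linarith)
    linarith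
  have hVlog : 2700000 * Real.log n ≤ V := by
    rw [hVdef, thr]
    have h1 : 3000000000 * Real.log n + 2 ≤ (3000000000 * Real.log n + 2) ^ 4 :=
      le_self_pow₀ (by linarith) (by norm_num)
    nlinarith
  have hVn : 1000000 * V ≤ n := by
    have h1 : (V + 1) ≤ (V + 1) ^ 6 := le_self_pow₀ (by linarith) (by norm_num)
    nlinarith
  -- the spread
  set N' := N ∩ I with hN'
  have hcardN : N.card ≤ N'.card + Iᶜ.card := by
    have h1 : N ⊆ N' ∪ Iᶜ := by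
      intro i hi
      by_cases hiI : i ∈ I
      · exact Finset.mem_union_left _ (Finset.mem_inter.mpr ⟨hi, hiI⟩)
      · exact Finset.mem_union_right _ (Finset.mem_compl.mpr hiI)
    exact (Finset.card_le_card h1).trans (Finset.card_union_le _ _)
  obtain ⟨b₀, hb₀, b₁, hb₁, hsp⟩ := hspread ι A B I M hM hB N' Finset.inter_subset_right
    (fun i hi => hN i (Finset.mem_inter.mp hi).1)
  set w₁ := (I.filter (fun i => b₀ i ≠ b₁ i)).card with hw₁
  set v := Iᶜ.card with hvdef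
  have hcardI : I.card + v = Fintype.card ι := by
    rw [hvdef]; exact Finset.card_add_card_compl I
  have hNr : (N.card : ℝ) ≤ (v : ℝ) * w₁ + v := by
    have : N.card ≤ v * w₁ + v := by omega
    exact_mod_cast this
  have hw₁r : n ≤ 200000 * V * w₁ := by
    have h1 : (v : ℝ) * w₁ ≤ V * w₁ := mul_le_mul_of_nonneg_right hv (Nat.cast_nonneg _)
    have h2 : n ≤ 100000 * (V * w₁ + V) := by linarith
    linarith
  have hw₁0 : 0 < w₁ := by
    rcases Nat.eq_zero_or_pos w₁ with h0 | h0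
    · exfalso
      rw [h0] at hw₁r
      simp at hw₁r
      linarith
    · exact h0
  set w := (w₁ + 1) / 2 with hw
  have hw2 : w₁ ≤ 2 * w := by omega
  have hw0 : 0 < w := by omega
  have hdist : ∀ b ∈ B, ∃ b' ∈ B, w ≤ (I.filter (fun i => b i ≠ b' i)).card := by
    intro b hb
    by_contra hcon
    push Not at hcon
    have h1 := hcon b₀ hb₀
    have h2 := hcon b₁ hb₁
    have h3 : w₁ ≤ (I.filter (fun i => b i ≠ b₀ i)).card + (I.filter (fun i => b i ≠ b₁ i)).card := by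
      rw [hw₁]
      refine (Finset.card_le_card ?_).trans (Finset.card_union_le _ _)
      intro i hi
      obtain ⟨hiI, hne⟩ := Finset.mem_filter.mp hi
      by_cases hbi : b i = b₀ i
      · apply Finset.mem_union_right
        apply Finset.mem_filter.mpr
        exact ⟨hiI, by rw [hbi]; exact hne⟩
      · exact Finset.mem_union_left _ (Finset.mem_filter.mpr ⟨hiI, hbi⟩)
    omega
  set t := |1 - 3 * p / 2| with htdef
  have ht0 : 0 ≤ t := abs_nonneg _
  have ht2 : t ^ 2 = (1 - 3 * p / 2) ^ 2 := sq_abs _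
  have htle1 : 1 - 3 * p / 2 ≤ t := le_abs_self _
  have htle2 : -(1 - 3 * p / 2) ≤ t := neg_le_abs _
  have hδr : (δ : ℝ) = p * n := by rw [hpδ]; field_simp
  have hIv : I.card + 2 * Iᶜ.card ≤ 2 * δ := by
    rw [← hvdef]
    have h1 : ((I.card + 2 * v : ℕ) : ℝ) ≤ ((2 * δ : ℕ) : ℝ) := by
      push_cast
      have h2 : (I.card : ℝ) + v = n := by rw [hn]; exact_mod_cast hcardI
      rw [hδr]
      nlinarith
    exact_mod_cast h1
  have hb := hbeta ι A B δ I M p ((1 + 2 * t) / 3) w h hM hp1 hp2 (by linarith) (by linarith)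
    hIv hw0 hdist
  have e3 : 3 * ((1 + 2 * t) / 3) = 1 + 2 * t := by ring
  rw [e3, ← hvdef] at hb
  have hsmall : 2 * t * (v : ℝ) ≤ 1 := by
    apply small_of_sq t v n V ht0 (Nat.cast_nonneg _) hn0 (by rw [ht2]; linarith)
    have h1 : (v : ℝ) ^ 2 ≤ V ^ 2 := pow_le_pow_left₀ (Nat.cast_nonneg _) hv 2
    have h2 : 4 * V * (v : ℝ) ^ 2 ≤ 4 * V * V ^ 2 :=
      mul_le_mul_of_nonneg_left h1 (by linarith)
    have h3 : V ^ 3 ≤ (V + 1) ^ 6 := by
      calc V ^ 3 ≤ (V + 1) ^ 3 := pow_le_pow_left₀ (by linarith) (by linarith) 3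
        _ ≤ (V + 1) ^ 6 := pow_le_pow_right₀ (by linarith) (by norm_num)
    nlinarith
  have hP := pow_small t ht0 v hsmall
  refine stepD n v V I.card w (T p A B) ((1 + 2 * t) ^ v) hn64 (Nat.cast_nonneg _) hv hV1 hbig
    ?_ ?_ hT (by positivity) hP hb
  · have h2 : (I.card : ℝ) + v = n := by rw [hn]; exact_mod_cast hcardI
    linarith
  · have h1 : (w₁ : ℝ) ≤ 2 * w := by exact_mod_cast hw2
    calc n ≤ 200000 * V * w₁ := hw₁r
      _ ≤ 200000 * V * (2 * w) := mul_le_mul_of_nonneg_left h1 (by linarith)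
      _ = 400000 * V * w := by ring

/-- many nondegenerate coordinates: impossible -/
theorem near_many (hinfo : S_info) (hent : S_ent) (hgap : S_phi_gap) (hinfo2 : S_info2)
    (hbox : S_box) (hbr : S_biasrank) (htilt : S_tilt) (hbp : S_bp) (halpha : S_alpha)
    (hbeta : S_beta) (hspread : S_spread)
    (A B : Finset (ι → ZMod 3)) (δ : ℕ) (hA : A.Nonempty) (hB : B.Nonempty)
    (h : ∀ a ∈ A, ∀ b ∈ B, hammingDist a b = δ) (N : Finset ι)
    (hN : ∀ i ∈ N, ¬ Cst A i ∧ ¬ Cst B i)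
    (n p : ℝ) (hn : n = Fintype.card ι) (hn64 : 64 ≤ n) (hpδ : p = (δ : ℝ) / n)
    (hp1 : 6 / 10 ≤ p) (hp2 : p ≤ 7 / 10) (hm : n ≤ 100000 * (N.card : ℝ))
    (hT : 1 / (8 * Real.sqrt n) ≤ T p A B)
    (hlog : Real.log (T p A B) ≤ - ((1 - 3 * p / 2) ^ 2 * p / 16) * N.card)
    (hbig : 10 ^ 13 * (thr n + 1) ^ 6 ≤ n) : False := by
  have hn0 : 0 < n := by linarith
  have hp0 : 0 < p := by linarith
  have hp1' : p < 1 := by linarith
  have hlogn : 0 ≤ Real.log n := Real.log_nonneg (by linarith)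
  have hadd := addPair_of_const A B δ h
  obtain ⟨ht, hT2⟩ := stepA n N.card p ((1 - 3 * p / 2) ^ 2) (T p A B) hn64 hp1 (by positivity)
    hm hT hlog
  obtain ⟨I, M, hM⟩ := hinfo2 ι A B hadd
  -- rank
  obtain ⟨ρ, hρ⟩ : ∃ ρ : ℕ, ρ = (blk I M).rank := ⟨_, rfl⟩
  have hbr' := hbr _ _ (blk I M)
  rw [← hρ] at hbr'
  have htl := htilt ι A B p hp0 hp1'
    (fun q hq0 hq1 => T_le_one hinfo hent hgap q hq0 hq1 A B hadd)
  have hρn := stepB n ((1 - 3 * p / 2) ^ 2) (T p A B) _ (Bias (blk I M)) ρ (Fintype.card ι)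
    hn64 hn.symm (by positivity) ht (T_pos p hp0 hp1' A B hA hB) hT2 (by positivity) htl
    (hbox ι A B I M hadd hM) hbr'
  have hcardI : I.card + Iᶜ.card = Fintype.card ι := Finset.card_add_card_compl I
  have hcardIr : (I.card : ℝ) + Iᶜ.card = n := by rw [hn]; exact_mod_cast hcardI
  set V := thr n with hVdef
  set c2 : ℝ := 3000000000 * Real.log n with hc2
  have hc20 : 0 ≤ c2 := by positivity
  have hVeq : V = 100000 * (c2 + 2) ^ 4 := by rw [hVdef, thr]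
  rcases le_or_gt ((Iᶜ.card : ℕ) : ℝ) V with hv | hv
  · exact betaCase hbeta hspread A B δ hB h N (fun i hi => (hN i hi).2) I M hM n p hn hn64 hpδ
      hp1 hp2 hm hT ht hbig hv
  rcases le_or_gt ((I.card : ℕ) : ℝ) V with hu | hu
  · refine betaCase hbeta hspread B A δ hA
      (fun b hb a ha => by rw [hammingDist_comm]; exact h a ha b hb) N
      (fun i hi => (hN i hi).1) Iᶜ _ (rel_swap hM) n p hn hn64 hpδ
      hp1 hp2 hm (by rw [T_comm]; exact hT) ht hbig ?_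
    rw [compl_compl]
    exact hu
  -- (α)
  set t := |1 - 3 * p / 2| with htdef
  have ht0 : 0 ≤ t := abs_nonneg _
  have ht2 : t ^ 2 = (1 - 3 * p / 2) ^ 2 := sq_abs _
  have htle1 : 1 - 3 * p / 2 ≤ t := le_abs_self _
  have htle2 : -(1 - 3 * p / 2) ≤ t := neg_le_abs _
  have ha := halpha ι A B δ I M p ((1 + 2 * t) / 3) (2 / Real.sqrt (((I.card - ρ : ℕ) : ℝ) + 1))
    (2 / Real.sqrt (((Iᶜ.card - ρ : ℕ) : ℝ) + 1)) ρ h hM hp0 hp1' (by linarith) (by linarith) hρ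
    (fun j => hbp p _ j (by linarith) (by linarith)) (fun j => hbp p _ j (by linarith) (by linarith))
  have e3 : 3 * ((1 + 2 * t) / 3) = 1 + 2 * t := by ring
  rw [e3] at ha
  have hc2V : 2 * (c2 + 2) ≤ V := by
    rw [hVeq]
    have h1 : c2 + 2 ≤ (c2 + 2) ^ 4 := le_self_pow₀ (by linarith) (by norm_num)
    nlinarith
  have hc2sq : (c2 + 2) ^ 2 ≤ V := by
    rw [hVeq]
    have h1 : (c2 + 2) ^ 2 ≤ (c2 + 2) ^ 4 := pow_le_pow_right₀ (by linarith) (by norm_num)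
    have h2 : 0 ≤ (c2 + 2) ^ 4 := by positivity
    linarith
  have hVn : 1000000 * V ≤ n := by
    have h1 : (V + 1) ≤ (V + 1) ^ 6 := le_self_pow₀ (by linarith) (by norm_num)
    nlinarith
  have hρu : 2 * (ρ : ℝ) ≤ I.card := by linarith
  have hρv : 2 * (ρ : ℝ) ≤ Iᶜ.card := by linarith
  have hsmall : 2 * t * ((2 * ρ : ℕ) : ℝ) ≤ 1 := by
    apply small_of_sq t _ n V ht0 (Nat.cast_nonneg _) hn0
    · rw [ht2]
      have : 2700000 * Real.log n ≤ c2 := by rw [hc2]; linarith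
      linarith
    · push_cast
      have h1 : (2 * (ρ : ℝ)) ^ 2 ≤ 4 * V := by
        have : (2 * (ρ : ℝ)) ^ 2 ≤ (2 * (c2 + 2)) ^ 2 :=
          pow_le_pow_left₀ (by positivity) (by linarith) 2
        nlinarith
      have h2 : 4 * V * (2 * (ρ : ℝ)) ^ 2 ≤ 4 * V * (4 * V) :=
        mul_le_mul_of_nonneg_left h1 (by linarith)
      have h3 : V ^ 2 ≤ (V + 1) ^ 6 := by
        calc V ^ 2 ≤ (V + 1) ^ 2 := pow_le_pow_left₀ (by linarith) (by linarith) 2
          _ ≤ (V + 1) ^ 6 := pow_le_pow_right₀ (by linarith) (by norm_num)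
      nlinarith
  have hP := pow_small t ht0 (2 * ρ) hsmall
  have hu' : (I.card : ℝ) / 2 ≤ ((I.card - ρ : ℕ) : ℝ) + 1 := by
    have : (I.card : ℝ) ≤ ((I.card - ρ : ℕ) : ℝ) + ρ := by
      have : I.card ≤ (I.card - ρ) + ρ := by omega
      exact_mod_cast this
    linarith
  have hv' : (Iᶜ.card : ℝ) / 2 ≤ ((Iᶜ.card - ρ : ℕ) : ℝ) + 1 := by
    have : (Iᶜ.card : ℝ) ≤ ((Iᶜ.card - ρ : ℕ) : ℝ) + ρ := by
      have : Iᶜ.card ≤ (Iᶜ.card - ρ) + ρ := by omega
      exact_mod_cast this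
    linarith
  have hVpos : 0 < V := by linarith
  refine stepC n ρ V _ _ (T p A B) ((1 + 2 * t) ^ (2 * ρ)) hn64 (Nat.cast_nonneg _) ?_ ?_
    (by positivity) (by positivity) hT (by positivity) hP ha
  · rw [hVeq]
    have h1 : ((ρ : ℝ) + 1) ^ 4 ≤ (c2 + 2) ^ 4 :=
      pow_le_pow_left₀ (by positivity) (by linarith) 4
    have h2 : 0 < (c2 + 2) ^ 4 := by positivity
    linarith
  · have h1 : (I.card : ℝ) / 2 * ((Iᶜ.card : ℝ) / 2) ≤
        (((I.card - ρ : ℕ) : ℝ) + 1) * (((Iᶜ.card - ρ : ℕ) : ℝ) + 1) :=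
      mul_le_mul hu' hv' (by positivity) (by positivity)
    have h2 : n * V / 2 ≤ (I.card : ℝ) * Iᶜ.card := by
      have hI : (I.card : ℝ) = n - Iᶜ.card := by linarith
      rcases le_total (I.card : ℝ) (Iᶜ.card : ℝ) with hle | hle
      · have : n / 2 ≤ Iᶜ.card := by linarith
        nlinarith
      · have : n / 2 ≤ I.card := by linarith
        nlinarith
    linarith

end Helper27.CW
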