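import Pool.Agent.Helper27.CW.AsmC

/-! CW assembly, part D: small `δ`. -/

namespace Helper27.CW

open Helper27.CD

variable {ι : Type} [Fintype ι] [DecidableEq ι]

lemma good_mass (p : ℝ) (h0 : 0 < p) (h1 : p < 1)
    (A B : Finset (ι → ZMod 3)) (hA : A.Nonempty) (hB : B.Nonempty) (I : Finset ι)
    (u : ι → ZMod 3)
    (hsum : ∑ i ∈ I, (1 - be p A B i (u i)) + ∑ i ∈ Iᶜ, (1 - al p A B i (u i)) ≤ 1 / 4) :
    T p A B - T p A B / 4 ≤
      ∑ a ∈ A.filter (fun a => ∀ i, i ∉ I → a i = u i),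
        ∑ b ∈ B.filter (fun b => ∀ i ∈ I, b i = u i), W p a b := by
  have hTpos := T_pos p h0 h1 A B hA hB
  have hbe : ∀ i, T p A B * (1 - be p A B i (u i))
      = ∑ a ∈ A, ∑ b ∈ B, if b i ≠ u i then W p a b else 0 := by
    intro i
    unfold be
    rw [mul_sub, mul_div_cancel₀ _ hTpos.ne', mul_one]
    unfold T
    rw [← Finset.sum_sub_distrib]
    apply Finset.sum_congr rfl
    intro a _
    rw [← Finset.sum_sub_distrib]
    apply Finset.sum_congr rfl
    intro b _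
    by_cases hb : b i = u i
    · simp [hb]
    · simp [hb]
  have hal : ∀ i, T p A B * (1 - al p A B i (u i))
      = ∑ a ∈ A, ∑ b ∈ B, if a i ≠ u i then W p a b else 0 := by
    intro i
    unfold al
    rw [mul_sub, mul_div_cancel₀ _ hTpos.ne', mul_one]
    unfold T
    rw [← Finset.sum_sub_distrib]
    apply Finset.sum_congr rfl
    intro a _
    rw [← Finset.sum_sub_distrib]
    apply Finset.sum_congr rfl
    intro b _
    by_cases hb : a i = u i
    · simp [hb]
    · simp [hb]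
  have hbad : ∑ i ∈ I, (∑ a ∈ A, ∑ b ∈ B, if b i ≠ u i then W p a b else 0)
      + ∑ i ∈ Iᶜ, (∑ a ∈ A, ∑ b ∈ B, if a i ≠ u i then W p a b else 0) ≤ T p A B / 4 := by
    rw [← Finset.sum_congr rfl (fun i _ => hbe i), ← Finset.sum_congr rfl (fun i _ => hal i),
      ← Finset.mul_sum, ← Finset.mul_sum, ← mul_add]
    calc _ ≤ T p A B * (1 / 4) := mul_le_mul_of_nonneg_left hsum hTpos.le
      _ = _ := by ring
  have hpt : ∀ a b : ι → ZMod 3, W p a b ≤
      (if (∀ i, i ∉ I → a i = u i) ∧ (∀ i ∈ I, b i = u i) then W p a b else 0)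
      + (∑ i ∈ I, (if b i ≠ u i then W p a b else 0)
      + ∑ i ∈ Iᶜ, (if a i ≠ u i then W p a b else 0)) := by
    intro a b
    have hW := (W_pos p h0 h1 a b).le
    have n1 : ∀ i ∈ I, (0:ℝ) ≤ (if b i ≠ u i then W p a b else 0) := by
      intro i _; split_ifs <;> [exact hW; exact le_rfl]
    have n2 : ∀ i ∈ Iᶜ, (0:ℝ) ≤ (if a i ≠ u i then W p a b else 0) := by
      intro i _; split_ifs <;> [exact hW; exact le_rfl]
    split_ifs with hg
    · have := Finset.sum_nonneg n1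
      have := Finset.sum_nonneg n2
      linarith
    · rw [not_and_or] at hg
      rcases hg with hg | hg
      · push Not at hg
        obtain ⟨i, hi, hne⟩ := hg
        have h3 : W p a b ≤ ∑ i ∈ Iᶜ, (if a i ≠ u i then W p a b else 0) := by
          refine le_trans ?_ (Finset.single_le_sum n2 (Finset.mem_compl.mpr hi))
          rw [if_pos hne]
        have := Finset.sum_nonneg n1
        linarith
      · push Not at hg
        obtain ⟨i, hi, hne⟩ := hg
        have h3 : W p a b ≤ ∑ i ∈ I, (if b i ≠ u i then W p a b else 0) := by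
          refine le_trans ?_ (Finset.single_le_sum n1 hi)
          rw [if_pos hne]
        have := Finset.sum_nonneg n2
        linarith
  have s1 : T p A B ≤ (∑ a ∈ A, ∑ b ∈ B,
      (if (∀ i, i ∉ I → a i = u i) ∧ (∀ i ∈ I, b i = u i) then W p a b else 0))
      + (∑ i ∈ I, (∑ a ∈ A, ∑ b ∈ B, if b i ≠ u i then W p a b else 0)
      + ∑ i ∈ Iᶜ, (∑ a ∈ A, ∑ b ∈ B, if a i ≠ u i then W p a b else 0)) := by
    have c1 : ∑ i ∈ I, (∑ a ∈ A, ∑ b ∈ B, if b i ≠ u i then W p a b else 0)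
        = ∑ a ∈ A, ∑ b ∈ B, ∑ i ∈ I, if b i ≠ u i then W p a b else 0 := by
      rw [Finset.sum_comm]
      apply Finset.sum_congr rfl
      intro a _
      rw [Finset.sum_comm]
    have c2 : ∑ i ∈ Iᶜ, (∑ a ∈ A, ∑ b ∈ B, if a i ≠ u i then W p a b else 0)
        = ∑ a ∈ A, ∑ b ∈ B, ∑ i ∈ Iᶜ, if a i ≠ u i then W p a b else 0 := by
      rw [Finset.sum_comm]
      apply Finset.sum_congr rfl
      intro a _
      rw [Finset.sum_comm]
    rw [c1, c2]
    unfold T
    rw [← Finset.sum_add_distrib, ← Finset.sum_add_distrib]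
    apply Finset.sum_le_sum
    intro a _
    rw [← Finset.sum_add_distrib, ← Finset.sum_add_distrib]
    apply Finset.sum_le_sum
    intro b _
    exact hpt a b
  have s2 : (∑ a ∈ A, ∑ b ∈ B,
      (if (∀ i, i ∉ I → a i = u i) ∧ (∀ i ∈ I, b i = u i) then W p a b else 0))
      = ∑ a ∈ A.filter (fun a => ∀ i, i ∉ I → a i = u i),
      ∑ b ∈ B.filter (fun b => ∀ i ∈ I, b i = u i), W p a b := by
    rw [Finset.sum_filter]
    apply Finset.sum_congr rfl
    intro a _
    rw [Finset.sum_filter]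
    by_cases ha : ∀ i, i ∉ I → a i = u i
    · rw [if_pos ha]
      apply Finset.sum_congr rfl
      intro b _
      by_cases hb : ∀ i ∈ I, b i = u i
      · rw [if_pos hb, if_pos ⟨ha, hb⟩]
      · rw [if_neg hb, if_neg (fun h => hb h.2)]
    · rw [if_neg ha]
      apply Finset.sum_eq_zero
      intro b _
      rw [if_neg (fun h => ha h.1)]
  rw [s2] at s1
  linarith

lemma good_rigid (hrs : S_rigid_small) (p : ℝ) (h0 : 0 < p) (h1 : p < 1)
    (A B : Finset (ι → ZMod 3)) (δ : ℕ) (hA : A.Nonempty) (hB : B.Nonempty)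
    (h : ∀ a ∈ A, ∀ b ∈ B, hammingDist a b = δ) (I : Finset ι)
    (u : ι → ZMod 3)
    (hsum : ∑ i ∈ I, (1 - be p A B i (u i)) + ∑ i ∈ Iᶜ, (1 - al p A B i (u i)) ≤ 1 / 4)
    (hbig : 2 * (δ : ℝ) * p < T p A B - T p A B / 4) : ∀ i, Cst A i ∨ Cst B i :=
  hrs ι p A B δ h0 h1 h I u (lt_of_lt_of_le hbig (good_mass p h0 h1 A B hA hB I u hsum))

lemma kappa_le (p : ℝ) (h0 : 0 < p) (h1 : p < 1) :
    p / 2 + Real.sqrt (2 * p * (1 - p)) ≤ 2 * Real.sqrt p := by
  have hs : 0 < Real.sqrt p := Real.sqrt_pos.mpr h0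
  have hsq : Real.sqrt p * Real.sqrt p = p := Real.mul_self_sqrt h0.le
  have h2 : Real.sqrt (2 * p * (1 - p)) ≤ 3 / 2 * Real.sqrt p := by
    apply Real.sqrt_le_iff.mpr
    refine ⟨by positivity, ?_⟩
    nlinarith
  have h3 : Real.sqrt p ≤ 1 := by
    rw [Real.sqrt_le_left (by norm_num)]; linarith
  nlinarith

/-- lower bound for the weight of a pair of the expected size -/
lemma T_lower (p : ℝ) (n δ : ℕ) (hδn : δ < n) (hδ0 : 0 < δ) (hp : p = (δ : ℝ) / n)
    (A B : Finset (Fin n → ZMod 3)) (h : ∀ a ∈ A, ∀ b ∈ B, hammingDist a b = δ)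
    (hF : 2 ^ δ * n.choose δ ≤ A.card * B.card) : bp p n δ ≤ T p A B := by
  have hn : (0 : ℝ) < n := by exact_mod_cast (lt_trans hδ0 hδn)
  have hp1 : 0 < 1 - p := by
    have : p < 1 := by
      rw [hp, div_lt_one hn]; exact_mod_cast hδn
    linarith
  have hp0 : 0 < p := by
    rw [hp]
    have : (0 : ℝ) < δ := by exact_mod_cast hδ0
    positivity
  rw [T_const _ A B δ h, Fintype.card_fin]
  unfold bp
  have h2 : (n.choose δ : ℝ) * p ^ δ * (1 - p) ^ (n - δ)
      = (2 ^ δ * n.choose δ : ℝ) * ((p / 2) ^ δ * (1 - p) ^ (n - δ)) := by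
    rw [div_pow p 2]
    field_simp
  rw [h2]
  apply mul_le_mul_of_nonneg_right
  · exact_mod_cast hF
  · positivity

theorem small_delta (hinfo : S_info) (hent : S_ent) (hps : S_phi_small)
    (hrs : S_rigid_small) (hsph : S_sphere) (hfib : S_fibre)
    (hmode : S_mode) (n δ : ℕ) (hδ0 : 0 < δ) (hn : 4 * δ * (4 * δ + 2) ^ 8 ≤ n)
    (A' B' : Finset (Fin n → ZMod 3)) (h' : ∀ a ∈ A', ∀ b ∈ B', hammingDist a b = δ) :
    A'.card * B'.card ≤ 2 ^ δ * n.choose δ := by
  classical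
  have hδn : δ < n := by
    refine lt_of_lt_of_le ?_ hn
    have h1 : 1 ≤ (4 * δ + 2) ^ 8 := Nat.one_le_pow _ _ (by omega)
    calc δ < 4 * δ * 1 := by omega
      _ ≤ 4 * δ * (4 * δ + 2) ^ 8 := Nat.mul_le_mul_left _ h1
  obtain ⟨A, B, h, hmax⟩ := exists_maximal (ι := Fin n) δ
  refine (hmax A' B' h').trans ?_
  obtain ⟨A₁, B₁, h₁, hc₁⟩ := sphere_pair hsph (ι := Fin n) δ
  rw [Fintype.card_fin] at hc₁
  have hF : 2 ^ δ * n.choose δ ≤ A.card * B.card := hc₁ ▸ hmax A₁ B₁ h₁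
  have hch : 0 < n.choose δ := Nat.choose_pos hδn.le
  have hAB : 0 < A.card * B.card := lt_of_lt_of_le (by positivity) hF
  have hA : A.Nonempty := Finset.card_pos.mp (Nat.pos_of_mul_pos_right hAB)
  have hB : B.Nonempty := Finset.card_pos.mp (Nat.pos_of_mul_pos_left hAB)
  have hnr : (0 : ℝ) < n := by exact_mod_cast (lt_trans hδ0 hδn)
  have hδ : (1 : ℝ) ≤ δ := by exact_mod_cast hδ0
  have hδn' : (δ : ℝ) < n := by exact_mod_cast hδn
  obtain ⟨p, hp⟩ : ∃ p : ℝ, p = (δ : ℝ) / n := ⟨_, rfl⟩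
  have hp0 : 0 < p := by rw [hp]; positivity
  have hp1 : p < 1 := by rw [hp, div_lt_one hnr]; exact hδn'
  have hTl : 1 / (4 * (δ : ℝ) + 2) ≤ T p A B := by
    refine le_trans ?_ (T_lower p n δ hδn hδ0 hp A B h hF)
    rw [hp]
    exact hmode n δ hδ0 hδn
  set D : ℝ := 4 * δ + 2 with hD
  have hD6 : 6 ≤ D := by linarith
  have hlogD : 1 ≤ Real.log D := by
    rw [Real.le_log_iff_exp_le (by linarith)]
    have := Real.exp_one_lt_d9
    linarith
  have hlogT : - Real.log D ≤ Real.log (T p A B) := by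
    rw [← Real.log_inv]
    apply Real.log_le_log (by positivity)
    rw [inv_eq_one_div]; exact hTl
  -- the constant
  have hnD : 4 * (δ : ℝ) * D ^ 8 ≤ n := by
    rw [hD]; exact_mod_cast hn
  have hpD : p ≤ 1 / (4 * D ^ 8) := by
    rw [hp, div_le_div_iff₀ hnr (by positivity)]
    linarith
  have hsp : Real.sqrt p ≤ 1 / (2 * D ^ 4) := by
    apply Real.sqrt_le_iff.mpr
    refine ⟨by positivity, ?_⟩
    refine hpD.trans (le_of_eq ?_)
    field_simp
    ring
  set kap : ℝ := p / 2 + Real.sqrt (2 * p * (1 - p)) with hkap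
  have hkap0 : 0 < kap := by
    have : 0 ≤ Real.sqrt (2 * p * (1 - p)) := Real.sqrt_nonneg _
    linarith
  have hkap1 : kap ≤ 1 / D ^ 4 := by
    refine (kappa_le p hp0 hp1).trans ?_
    calc 2 * Real.sqrt p ≤ 2 * (1 / (2 * D ^ 4)) := by linarith
      _ = 1 / D ^ 4 := by field_simp
  have hlogk : Real.log kap ≤ -(4 * Real.log D) := by
    have h1 := Real.log_le_log hkap0 hkap1
    rw [one_div, Real.log_inv, Real.log_pow] at h1
    exact_mod_cast h1
  obtain ⟨I, hI1, hI2⟩ := hinfo (Fin n) A B (addPair_of_const A B δ h)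
  have hE := hent (Fin n) p A B hp0 hp1 hA hB (addPair_of_const A B δ h) I hI1 hI2
  choose u hu using fun i => exists_argmax (if i ∈ I then be p A B i else al p A B i)
  have e1 : ∑ i ∈ I, phi p (al p A B i) (be p A B i)
      ≤ ∑ i ∈ I, Real.log kap * (1 - be p A B i (u i)) := by
    apply Finset.sum_le_sum
    intro i hi
    have hu' := hu i
    rw [if_pos hi] at hu'
    exact hps p _ _ hp0 hp1 (al_simplex p hp0 hp1 A B hA hB i) (be_simplex p hp0 hp1 A B hA hB i)
      (u i) hu'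
  have e2 : ∑ i ∈ Iᶜ, phi p (be p A B i) (al p A B i)
      ≤ ∑ i ∈ Iᶜ, Real.log kap * (1 - al p A B i (u i)) := by
    apply Finset.sum_le_sum
    intro i hi
    have hi' : i ∉ I := Finset.mem_compl.mp hi
    have hu' := hu i
    rw [if_neg hi'] at hu'
    exact hps p _ _ hp0 hp1 (be_simplex p hp0 hp1 A B hA hB i) (al_simplex p hp0 hp1 A B hA hB i)
      (u i) hu'
  have hsum : ∑ i ∈ I, (1 - be p A B i (u i)) + ∑ i ∈ Iᶜ, (1 - al p A B i (u i)) ≤ 1 / 4 := by
    have g1 : 0 ≤ ∑ i ∈ I, (1 - be p A B i (u i)) := by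
      apply Finset.sum_nonneg
      intro i _
      have := le_one_of_simplex _ (be_simplex p hp0 hp1 A B hA hB i) (u i)
      linarith
    have g2 : 0 ≤ ∑ i ∈ Iᶜ, (1 - al p A B i (u i)) := by
      apply Finset.sum_nonneg
      intro i _
      have := le_one_of_simplex _ (al_simplex p hp0 hp1 A B hA hB i) (u i)
      linarith
    rw [← Finset.mul_sum] at e1 e2
    set S := ∑ i ∈ I, (1 - be p A B i (u i)) + ∑ i ∈ Iᶜ, (1 - al p A B i (u i)) with hS
    have hS0 : 0 ≤ S := by linarith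
    have h3 : - Real.log D ≤ Real.log kap * S := by
      rw [hS, mul_add]
      linarith
    have h4 : Real.log kap * S ≤ -(4 * Real.log D) * S := mul_le_mul_of_nonneg_right hlogk hS0
    by_contra hc
    push Not at hc
    nlinarith
  have hbig : 2 * (δ : ℝ) * p < T p A B - T p A B / 4 := by
    have h1 : 2 * (δ : ℝ) * p ≤ 2 * δ * (1 / (4 * D ^ 8)) :=
      mul_le_mul_of_nonneg_left hpD (by positivity)
    have h2 : 2 * (δ : ℝ) * (1 / (4 * D ^ 8)) < 3 / 4 * (1 / D) := by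
      have hDδ : 2 * (δ : ℝ) ≤ D := by rw [hD]; linarith
      have h3 : 2 * (δ : ℝ) * (1 / (4 * D ^ 8)) ≤ D * (1 / (4 * D ^ 8)) :=
        mul_le_mul_of_nonneg_right hDδ (by positivity)
      have h4 : D * (1 / (4 * D ^ 8)) = 1 / (4 * D ^ 6) * (1 / D) := by
        field_simp
      have h5 : 1 / (4 * D ^ 6) < 3 / 4 := by
        rw [div_lt_iff₀ (by positivity)]
        have : 1 ≤ D ^ 6 := one_le_pow₀ (by linarith)
        linarith
      rw [h4] at h3
      refine lt_of_le_of_lt h3 (mul_lt_mul_of_pos_right h5 (by positivity))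
    have h6 : 3 / 4 * (1 / D) ≤ T p A B - T p A B / 4 := by linarith
    linarith
  have hdeg := good_rigid hrs p hp0 hp1 A B δ hA hB h I u hsum hbig
  have := degenerate_bound hfib A B δ h hdeg
  rw [Fintype.card_fin] at this
  exact this

end Helper27.CW
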