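import Pool.Agent.Helper27.CW.AsmD

/-! CW assembly, part E: the window, and all `δ`. -/

namespace Helper27.CW

open Helper27.CD

/-- the window around `2 n / 3` -/
theorem window (hinfo : S_info) (hent : S_ent) (hgap : S_phi_gap) (hpc : S_phi_clean)
    (hclean : S_clean) (hsph : S_sphere) (hfib : S_fibre)
    (hac : S_aclean) (hj : S_joint) (hrel : S_phi_relax) (hinfo2 : S_info2) (hbox : S_box)
    (hbB : S_biasB) (hbr : S_biasrank) (htilt : S_tilt) (hbin : S_binom2) (hbp : S_bp)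
    (hmode : S_mode2) (halpha : S_alpha) (hbeta : S_beta) (hspread : S_spread)
    (n δ : ℕ) (hn64 : 64 ≤ (n : ℝ)) (hbig : 10 ^ 13 * (thr n + 1) ^ 6 ≤ (n : ℝ))
    (hw : |3 * (δ : ℝ) - 2 * n| ≤ n / 10)
    (A' B' : Finset (Fin n → ZMod 3)) (h' : ∀ a ∈ A', ∀ b ∈ B', hammingDist a b = δ) :
    A'.card * B'.card ≤ 2 ^ δ * n.choose δ := by
  have hnr : (0 : ℝ) < n := by linarith
  obtain ⟨hw1, hw2⟩ := abs_le.mp hw
  have hδ1 : 6 / 10 * (n : ℝ) ≤ δ := by linarith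
  have hδ2 : (δ : ℝ) ≤ 7 / 10 * n := by linarith
  have hδ0 : 0 < δ := by
    have : (0 : ℝ) < δ := by linarith
    exact_mod_cast this
  have hδn : δ < n := by
    have : (δ : ℝ) < n := by linarith
    exact_mod_cast this
  obtain ⟨A, B, h, hmax⟩ := exists_maximal (ι := Fin n) δ
  refine (hmax A' B' h').trans ?_
  obtain ⟨A₁, B₁, h₁, hc₁⟩ := sphere_pair hsph (ι := Fin n) δ
  rw [Fintype.card_fin] at hc₁
  have hF : 2 ^ δ * n.choose δ ≤ A.card * B.card := hc₁ ▸ hmax A₁ B₁ h₁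
  have hch : 0 < n.choose δ := Nat.choose_pos hδn.le
  have hAB : 0 < A.card * B.card := lt_of_lt_of_le (by positivity) hF
  have hA : A.Nonempty := Finset.card_pos.mp (Nat.pos_of_mul_pos_right hAB)
  have hB : B.Nonempty := Finset.card_pos.mp (Nat.pos_of_mul_pos_left hAB)
  classical
  set N : Finset (Fin n) := Finset.univ.filter (fun i => ¬ Cst A i ∧ ¬ Cst B i) with hNdef
  have hN1 : ∀ i ∈ N, ¬ Cst A i ∧ ¬ Cst B i := fun i hi => (Finset.mem_filter.mp hi).2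
  have hN2 : ∀ i, i ∉ N → Cst A i ∨ Cst B i := by
    intro i hi
    by_contra hcon
    push Not at hcon
    exact hi (Finset.mem_filter.mpr ⟨Finset.mem_univ _, hcon⟩)
  rcases Nat.eq_zero_or_pos N.card with hm0 | hm1
  · have hNe : N = ∅ := Finset.card_eq_zero.mp hm0
    have := degenerate_bound hfib A B δ h (fun i => hN2 i (by rw [hNe]; exact Finset.notMem_empty _))
    rw [Fintype.card_fin] at this
    exact this
  exfalso
  obtain ⟨p, hp⟩ : ∃ p : ℝ, p = (δ : ℝ) / n := ⟨_, rfl⟩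
  have hp6 : 6 / 10 ≤ p := by rw [hp, le_div_iff₀ hnr]; exact hδ1
  have hp7 : p ≤ 7 / 10 := by rw [hp, div_le_iff₀ hnr]; exact hδ2
  have hp0 : 0 < p := by linarith
  have hp1 : p < 1 := by linarith
  have hlog := maximal_bound hinfo hent hgap hpc hclean p hp0 hp1 A B δ hA hB h hmax N hN1
  have hTl : 1 / (8 * Real.sqrt n) ≤ T p A B := by
    refine le_trans ?_ (T_lower p n δ hδn hδ0 hp A B h hF)
    rw [hp]
    exact hmode n δ hδ0 hδn
  rcases le_or_gt (100000 * N.card) n with hc | hc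
  · have h1 := near_few hinfo hent hgap hac hj hrel hinfo2 hbox hbB htilt hfib hbin A B δ hA hB h
      N hN1 hN2 hm1 (by rw [Fintype.card_fin]; exact hc)
      (by rw [Fintype.card_fin]; linarith) (by rw [Fintype.card_fin]; linarith)
    rw [Fintype.card_fin] at h1
    have h7 : (2 ^ δ * n.choose δ : ℝ) ≤ A.card * B.card := by exact_mod_cast hF
    linarith
  · have hc' : (n : ℝ) ≤ 100000 * (N.card : ℝ) := by exact_mod_cast hc.le
    exact near_many hinfo hent hgap hinfo2 hbox hbr htilt hbp halpha hbeta hspread A B δ hA hB h N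
      hN1 n p (by rw [Fintype.card_fin]) hn64 hp hp6 hp7 hc' hTl hlog hbig

lemma thr_explicit (x : ℝ) (hx : 2 ^ 1200 ≤ x) : 10 ^ 13 * (thr x + 1) ^ 6 ≤ x := by
  have hx0 : 0 < x := lt_of_lt_of_le (by positivity) hx
  obtain ⟨y, hy0, hy⟩ : ∃ y : ℝ, 0 < y ∧ y ^ 1200 = x := by
    refine ⟨x ^ ((1 : ℝ) / 1200), Real.rpow_pos_of_pos hx0 _, ?_⟩
    rw [← Real.rpow_natCast, ← Real.rpow_mul hx0.le]
    norm_num
  have hy2 : 2 ≤ y := by
    rw [← hy] at hx
    exact le_of_pow_le_pow_left₀ (by norm_num) hy0.le hx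
  have hlog : Real.log x ≤ 1200 * y := by
    rw [← hy, Real.log_pow]
    have := Real.log_le_sub_one_of_pos hy0
    push_cast
    linarith
  have hlog0 : 0 ≤ Real.log x := by
    apply Real.log_nonneg
    exact le_trans (one_le_pow₀ (by norm_num)) hx
  have h5 : thr x = 100000 * (3000000000 * Real.log x + 2) ^ 4 := rfl
  have h3 : thr x + 1 ≤ 200000 * (3700000000000 * y) ^ 4 := by
    have h4 : (3000000000 * Real.log x + 2) ^ 4 ≤ (3700000000000 * y) ^ 4 :=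
      pow_le_pow_left₀ (by linarith) (by linarith) 4
    have h6 : 1 ≤ (3700000000000 * y) ^ 4 := one_le_pow₀ (by linarith)
    rw [h5]
    linarith
  have h4 : 0 ≤ thr x + 1 := by rw [h5]; positivity
  have h7 : (thr x + 1) ^ 6 ≤ (200000 * (3700000000000 * y) ^ 4) ^ 6 := pow_le_pow_left₀ h4 h3 6
  have h8 : (10 ^ 13 * (200000 * 3700000000000 ^ 4) ^ 6 : ℝ) ≤ 2 ^ 1176 := by
    have e : (2 : ℝ) ^ 1176 = (2 ^ 196) ^ 6 := by rw [← pow_mul]
    rw [e]
    norm_num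
  have h9 : (2 : ℝ) ^ 1176 ≤ y ^ 1176 := pow_le_pow_left₀ (by norm_num) hy2 _
  calc 10 ^ 13 * (thr x + 1) ^ 6 ≤ 10 ^ 13 * (200000 * (3700000000000 * y) ^ 4) ^ 6 := by
        linarith
    _ = (10 ^ 13 * (200000 * 3700000000000 ^ 4) ^ 6) * y ^ 24 := by ring
    _ ≤ y ^ 1176 * y ^ 24 := mul_le_mul_of_nonneg_right (h8.trans h9) (by positivity)
    _ = y ^ 1200 := by rw [← pow_add]
    _ = x := hy

lemma win_explicit (x : ℝ) (hx : 2 ^ 1200 ≤ x) :
    (2 : ℝ) ^ 67 * x ^ ((7 : ℝ) / 8) ≤ x / 10 := by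
  have hx0 : 0 < x := lt_of_lt_of_le (by positivity) hx
  have h2 : x = x ^ ((7 : ℝ) / 8) * x ^ ((1 : ℝ) / 8) := by
    rw [← Real.rpow_add hx0]
    norm_num
  have h3 : 0 < x ^ ((7 : ℝ) / 8) := Real.rpow_pos_of_pos hx0 _
  have h5 : 10 * 2 ^ 67 ≤ x ^ ((1 : ℝ) / 8) := by
    have h6 : ((2 : ℝ) ^ 1200) ^ ((1 : ℝ) / 8) ≤ x ^ ((1 : ℝ) / 8) :=
      Real.rpow_le_rpow (by positivity) hx (by norm_num)
    have h7 : ((2 : ℝ) ^ 1200) ^ ((1 : ℝ) / 8) = 2 ^ 150 := by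
      rw [← Real.rpow_natCast, ← Real.rpow_mul (by norm_num)]
      have : ((1200 : ℕ) : ℝ) * (1 / 8) = ((150 : ℕ) : ℝ) := by norm_num
      rw [this, Real.rpow_natCast]
    rw [h7] at h6
    refine le_trans ?_ h6
    norm_num
  have h4 : x ^ ((7 : ℝ) / 8) * (10 * 2 ^ 67) ≤ x ^ ((7 : ℝ) / 8) * x ^ ((1 : ℝ) / 8) :=
    mul_le_mul_of_nonneg_left h5 h3.le
  rw [← h2] at h4
  linarith

lemma threshold (n : ℕ) (hn : 2 ^ 1200 ≤ n) :
    64 ≤ (n : ℝ) ∧ 10 ^ 13 * (thr n + 1) ^ 6 ≤ (n : ℝ) ∧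
    (2 : ℝ) ^ 67 * (n : ℝ) ^ ((7 : ℝ) / 8) ≤ (n : ℝ) / 10 ∧
    4 * 2 ^ 67 * (4 * 2 ^ 67 + 2) ^ 8 ≤ n := by
  have hn' : (2 : ℝ) ^ 1200 ≤ n := by exact_mod_cast hn
  refine ⟨le_trans ?_ hn', thr_explicit _ hn', win_explicit _ hn', ?_⟩
  · calc (64 : ℝ) = 2 ^ 6 := by norm_num
      _ ≤ 2 ^ 1200 := pow_le_pow_right₀ (by norm_num) (by norm_num)
  · refine le_trans ?_ hn
    have e : (2 : ℕ) ^ 1200 = (2 ^ 240) ^ 5 := by rw [← pow_mul]
    rw [e]
    norm_num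

/-- all `δ`, `n` large -/
theorem all_large (hinfo : S_info) (hent : S_ent) (hgap : S_phi_gap) (hpc : S_phi_clean)
    (hclean : S_clean) (hsph : S_sphere) (hfib : S_fibre) (hmode1 : S_mode)
    (hac : S_aclean) (hj : S_joint) (hrel : S_phi_relax) (hinfo2 : S_info2) (hbox : S_box)
    (hbB : S_biasB) (hbr : S_biasrank) (htilt : S_tilt) (hbin : S_binom2) (hbp : S_bp)
    (hmode : S_mode2) (halpha : S_alpha) (hbeta : S_beta) (hspread : S_spread)
    (hps : S_phi_small) (hrs : S_rigid_small) :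
    ∀ n : ℕ, 2 ^ 1200 ≤ n → ∀ δ : ℕ, δ ≤ n →
      ∀ A B : Finset (Fin n → ZMod 3), (∀ a ∈ A, ∀ b ∈ B, hammingDist a b = δ) →
        A.card * B.card ≤ 2 ^ δ * n.choose δ := by
  intro n hn δ hδn A B h
  obtain ⟨h64, hthr, hwin, hsmall⟩ := threshold n hn
  rcases Nat.eq_zero_or_pos δ with rfl | hδ0
  · -- δ = 0
    rcases A.eq_empty_or_nonempty with rfl | ⟨a, ha⟩
    · simp
    rcases B.eq_empty_or_nonempty with rfl | ⟨b, hb⟩
    · simp
    have hA : A.card ≤ 1 := by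
      rw [Finset.card_le_one]
      intro x hx y hy
      have h1 := hammingDist_eq_zero.mp (h x hx b hb)
      have h2 := hammingDist_eq_zero.mp (h y hy b hb)
      rw [h1, h2]
    have hB : B.card ≤ 1 := by
      rw [Finset.card_le_one]
      intro x hx y hy
      have h1 := hammingDist_eq_zero.mp (h a ha x hx)
      have h2 := hammingDist_eq_zero.mp (h a ha y hy)
      rw [← h1, ← h2]
    calc A.card * B.card ≤ 1 * 1 := Nat.mul_le_mul hA hB
      _ = 2 ^ 0 * n.choose 0 := by simp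
  rcases hδn.lt_or_eq with hlt | heq
  swap
  · subst heq
    exact core_full hfib δ A B h
  rcases lt_or_ge δ (2 ^ 67) with hs | hs
  · apply small_delta hinfo hent hps hrs hsph hfib hmode1 n δ hδ0 _ A B h
    refine le_trans ?_ hsmall
    have h1 : (4 * δ + 2) ^ 8 ≤ (4 * 2 ^ 67 + 2) ^ 8 := Nat.pow_le_pow_left (by omega) 8
    exact Nat.mul_le_mul (by omega) h1
  · rcases le_or_gt ((2 : ℝ) ^ 67 * (n : ℝ) ^ ((7 : ℝ) / 8)) |3 * (δ : ℝ) - 2 * n| with hf | hf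
    · exact (greatest n δ hδ0 hδn (cond_of_far n δ hs hδn hf)).2 ⟨A, B, h, rfl⟩
    · exact window hinfo hent hgap hpc hclean hsph hfib hac hj hrel hinfo2 hbox hbB hbr htilt hbin
        hbp hmode halpha hbeta hspread n δ h64 hthr (hf.le.trans hwin) A B h

end Helper27.CW
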