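import Pool.Agent.Helper27.CD.Defs

/-! MP_990a44_co, q = 3, second stage (all δ, n large).  Definitions shared by all parts. -/

namespace Helper27.CW

open Helper27.CD

/-- differences of `A` are the graph of `M` over the coordinates in `I`,
differences of `B` lie in its orthogonal complement -/
def Rel {ι : Type*} [Fintype ι] [DecidableEq ι] (A B : Finset (ι → ZMod 3)) (I : Finset ι)
    (M : ι → ι → ZMod 3) : Prop :=
  (∀ a ∈ A, ∀ a' ∈ A, ∀ l, l ∉ I → a l - a' l = ∑ i ∈ I, M l i * (a i - a' i)) ∧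
  (∀ b ∈ B, ∀ b' ∈ B, ∀ i ∈ I, b i - b' i = - ∑ l ∈ Iᶜ, M l i * (b l - b' l))

/-- the block of `M` with rows off `I` and columns in `I` -/
def blk {ι : Type*} [Fintype ι] [DecidableEq ι] (I : Finset ι) (M : ι → ι → ZMod 3) :
    Matrix {l // l ∈ Iᶜ} {i // i ∈ I} (ZMod 3) := Matrix.of fun l i => M l i

/-- real part of the cubic character -/
noncomputable def chi (x : ZMod 3) : ℝ := if x = 0 then 1 else -1 / 2

/-- average of `chi ∘ Q` -/
noncomputable def GB {V1 V2 V3 V4 : Type*} [Fintype V1] [Fintype V2] [Fintype V3] [Fintype V4]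
    (Q : V1 → V2 → V3 → V4 → ZMod 3) : ℝ :=
  (∑ a, ∑ b, ∑ c, ∑ d, chi (Q a b c d)) /
    ((Fintype.card V1 : ℝ) * Fintype.card V2 * Fintype.card V3 * Fintype.card V4)

/-- additive in each of the four variables -/
def Add4 {V1 V2 V3 V4 : Type*} [AddCommGroup V1] [AddCommGroup V2] [AddCommGroup V3]
    [AddCommGroup V4] (Q : V1 → V2 → V3 → V4 → ZMod 3) : Prop :=
  (∀ a a' b c d, Q (a + a') b c d = Q a b c d + Q a' b c d) ∧
  (∀ a b b' c d, Q a (b + b') c d = Q a b c d + Q a b' c d) ∧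
  (∀ a b c c' d, Q a b (c + c') d = Q a b c d + Q a b c' d) ∧
  (∀ a b c d d', Q a b c (d + d') = Q a b c d + Q a b c d')

/-- the 4-linear form of a matrix -/
def QM {L S : Type*} [Fintype L] [Fintype S] (M : Matrix L S (ZMod 3))
    (z z' : S → ZMod 3) (y y' : L → ZMod 3) : ZMod 3 :=
  ∑ i, z i * z' i * (∑ l, M l i * y l) * (∑ l, M l i * y' l)
    + ∑ l, (∑ i, M l i * z i) * (∑ i, M l i * z' i) * y l * y' l

/-- the average of the cubic character of the 4-linear form of a matrix -/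
noncomputable def Bias {L S : Type*} [Fintype L] [Fintype S] [DecidableEq L] [DecidableEq S]
    (M : Matrix L S (ZMod 3)) : ℝ := GB (QM M)

/-- the rows in `R` of the columns in `S'` span everything -/
def Spans {L S : Type*} [Fintype L] (M : Matrix L S (ZMod 3)) (S' : Finset S) (R : Finset L) :
    Prop :=
  ∀ f : S → ZMod 3, ∃ y : L → ZMod 3, (∀ r, r ∉ R → y r = 0) ∧ ∀ i ∈ S', ∑ r, M r i * y r = f i

/-- difference in the first variable -/
def D1 {V1 V2 : Type*} [AddCommGroup V1] (h : V1) (w : V1 → V2 → ℤ) : V1 → V2 → ℤ :=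
  fun z y => w (z + h) y - w z y

/-- difference in the second variable -/
def D2 {V1 V2 : Type*} [AddCommGroup V2] (k : V2) (w : V1 → V2 → ℤ) : V1 → V2 → ℤ :=
  fun z y => w z (y + k) - w z y

/-- binomial point probability -/
noncomputable def bp (p : ℝ) (k j : ℕ) : ℝ := (k.choose j : ℝ) * p ^ j * (1 - p) ^ (k - j)

end Helper27.CW
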