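import Pool.Agent.Helper27.CW.AsmE
import Pool.Agent.Helper6.CW.Basic
import Pool.Agent.Helper6.CW.Q1
import Pool.Agent.Helper6.CW.Q14b
import Pool.Agent.Helper6.CW.Q5ab
import Pool.Agent.Helper6.CW.Q5d
import Pool.Agent.Helper6.CW.Q6
import Pool.Agent.Helper47.CW.Q12a
import Pool.Agent.Helper47.CW.Q12b
import Pool.Agent.Helper47.CW.Q7Q10
import Pool.Agent.Helper47.CW.Q9Q15a
import Pool.Agent.Helper61.CW.Q15b
import Pool.Agent.Helper61.CW.Q3
import Pool.Agent.Helper61.CW.Q3a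
import Pool.Agent.Helper61.CW.Q8a
import Pool.Agent.Helper61.CW.Q8b
import Pool.Agent.Helper76.CW.Q13
import Pool.Agent.Helper76.CW.Q14
import Pool.Agent.Helper86.CW.Q4
import Pool.Agent.Helper86.CW.Q12c

/-! CW: everything together. -/

namespace Helper27.CW

open Helper27.CD

theorem biasrank_thm : S_biasrank :=
  Pool.Agent.Helper6.CW.biasrank_of Helper86.CW.dich Pool.Agent.Helper6.CW.biasA
    Pool.Agent.Helper6.CW.biasB Pool.Agent.Helper6.CW.biasC

theorem all_upper (n : ℕ) (hn : 2 ^ 1200 ≤ n) (δ : ℕ) (hδ : δ ≤ n)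
    (A B : Finset (Fin n → ZMod 3)) (h : ∀ a ∈ A, ∀ b ∈ B, hammingDist a b = δ) :
    A.card * B.card ≤ 2 ^ δ * n.choose δ :=
  all_large Pool.Agent.Helper61.CD.info P2.ent_thm Pool.Agent.Helper47.CD.phi_gap
    Pool.Agent.Helper47.CD.phi_clean P4.clean_thm Pool.Agent.Helper61.CD.sphere
    (Pool.Agent.Helper47.CD.fibre_of Pool.Agent.Helper61.CD.sphere)
    Pool.Agent.Helper47.CD.mode
    Helper61.CW.Q8a.aclean_thm Helper61.CW.Q8b.joint_thm Pool.Agent.Helper47.CW.phi_relax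
    Pool.Agent.Helper6.CW.info2 (Helper61.CW.Q3.box_thm Helper61.CW.Q3a.gcs_thm)
    Pool.Agent.Helper6.CW.biasB biasrank_thm Pool.Agent.Helper47.CW.tilt
    Pool.Agent.Helper47.CW.binom2 Pool.Agent.Helper47.CW.bp_le Pool.Agent.Helper47.CW.mode2
    Pool.Agent.Helper76.CW.alpha
    (Pool.Agent.Helper76.CW.beta (Helper86.CW.tri Pool.Agent.Helper47.CW.bp_le))
    Pool.Agent.Helper6.CW.spread Pool.Agent.Helper47.CW.phi_small
    Helper61.CW.Q15b.rigid_small_thm n hn δ hδ A B h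

theorem small_upper (n δ : ℕ) (hδ0 : 0 < δ) (hn : 4 * δ * (4 * δ + 2) ^ 8 ≤ n)
    (A B : Finset (Fin n → ZMod 3)) (h : ∀ a ∈ A, ∀ b ∈ B, hammingDist a b = δ) :
    A.card * B.card ≤ 2 ^ δ * n.choose δ :=
  small_delta Pool.Agent.Helper61.CD.info P2.ent_thm Pool.Agent.Helper47.CW.phi_small
    Helper61.CW.Q15b.rigid_small_thm Pool.Agent.Helper61.CD.sphere
    (Pool.Agent.Helper47.CD.fibre_of Pool.Agent.Helper61.CD.sphere)
    Pool.Agent.Helper47.CD.mode n δ hδ0 hn A B h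

theorem zero_upper (n : ℕ) (A B : Finset (Fin n → ZMod 3))
    (h : ∀ a ∈ A, ∀ b ∈ B, hammingDist a b = 0) : A.card * B.card ≤ 2 ^ 0 * n.choose 0 := by
  rcases A.eq_empty_or_nonempty with rfl | ⟨a, ha⟩
  · simp
  rcases B.eq_empty_or_nonempty with rfl | ⟨b, hb⟩
  · simp
  have hA : A.card ≤ 1 := by
    rw [Finset.card_le_one]
    intro x hx y hy
    rw [hammingDist_eq_zero.mp (h x hx b hb), hammingDist_eq_zero.mp (h y hy b hb)]
  have hB : B.card ≤ 1 := by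
    rw [Finset.card_le_one]
    intro x hx y hy
    rw [← hammingDist_eq_zero.mp (h a ha x hx), ← hammingDist_eq_zero.mp (h a ha y hy)]
  calc A.card * B.card ≤ 1 * 1 := Nat.mul_le_mul hA hB
    _ = 2 ^ 0 * n.choose 0 := by simp

/-- from the upper bound to the maximum -/
theorem greatest_of_upper (n δ : ℕ)
    (hup : ∀ A B : Finset (Fin n → ZMod 3), (∀ a ∈ A, ∀ b ∈ B, hammingDist a b = δ) →
      A.card * B.card ≤ 2 ^ δ * n.choose δ) :
    IsGreatest (prods n δ) (2 ^ δ * n.choose δ) := by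
  refine ⟨?_, ?_⟩
  · obtain ⟨A, B, h1, h2⟩ := sphere_pair Pool.Agent.Helper61.CD.sphere (ι := Fin n) δ
    rw [Fintype.card_fin] at h2
    exact ⟨A, B, h1, h2⟩
  · rintro k ⟨A, B, h, rfl⟩
    exact hup A B h

end Helper27.CW
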